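import Mathlib
import Pool.Agent.H822.EX.FinDefs

/-!
# Symplectomorphisms with an invertible block: definitions

On `ℝ^{2(k+n)}` we write `(x, y, w)` for the coordinates: `(x, y)` are the first `k` coordinate
pairs (`first`), and `w` is the point of `ℝ^{2n}` formed by the other coordinates (`rest`).
-/

set_option autoImplicit false

open scoped ContDiff
open Set Filter Topology Function
open Q170.SC

namespace Pool.Agent.H822.EF

variable {k n : ℕ}

/-- the first `k` coordinate pairs -/
def first (z : E (k + n)) : E k :=
  (fun i => z.1 (Fin.castAdd n i), fun i => z.2 (Fin.castAdd n i))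

/-- the other coordinate pairs -/
def rest (z : E (k + n)) : E n :=
  (fun i => z.1 (Fin.natAdd k i), fun i => z.2 (Fin.natAdd k i))

/-- the vector of `ℝ^{2(k+n)}` whose first `k` `x` coordinates are `v`; all others are `0` -/
def inX (v : Fin k → ℝ) : E (k + n) := (Fin.append v 0, 0)

/-- `φ` lies in the subset `A` of `G_{k+n}`: at each point `z` the `k × k` block of the derivative
of `φ`, formed by the derivatives of the first `k` `x` coordinates of `φ` in the directions of the
first `k` `x` coordinates, has no real eigenvalue `-t ≤ 0`. -/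
def Block (φ : SympCt (k + n)) : Prop := ∀ (z : E (k + n)) (v : Fin k → ℝ) (t : ℝ), 0 ≤ t →
  (first (fderiv ℝ φ.map z (inX v))).1 = -(t • v) → v = 0

variable {P : Type} [NormedAddCommGroup P] [NormedSpace ℝ P]

/-- A smooth map with compact support from `P` to `A`. -/
structure BlockMap (φ : P → SympCt (k + n)) : Prop where
  fam : Fam φ
  block : ∀ p, Block (φ p)

/-- Two such maps are smoothly homotopic in `A`, with compact support. -/
def BlockHtp (φ φ' : P → SympCt (k + n)) : Prop :=
  ∃ (B : ℝ → P → SympCt (k + n)) (K : Set (P × E (k + n))), IsCompact K ∧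
    Smooth (fun q : ℝ × P => (B q.1 q.2).map) ∧
    (∀ s p z, (p, z) ∉ K → (B s p).map z = z) ∧ (∀ s p, Block (B s p)) ∧ B 0 = φ ∧ B 1 = φ'

/-- `b` is the transition map of `φ`: if `φ p` maps `(x, y, w)` to `(x', y', w')` then
`w' = b (p, x', y) w`. -/
def IsTransition (φ : P → SympCt (k + n)) (b : P × E k → SympCt n) : Prop :=
  ∀ p z, rest ((φ p).map z) = (b (p, ((first ((φ p).map z)).1, (first z).2))).map (rest z)

end Pool.Agent.H822.EF
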