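import Mathlib
import Pool.Agent.H822.EX.MainP

/-!
# Local diffeomorphisms which are the identity off a compact set; smooth families of inverses
-/

set_option autoImplicit false

open scoped ContDiff
open Set Filter Topology Function Metric

namespace Pool.Agent.H822.BK

section had

variable {V : Type} [NormedAddCommGroup V] [NormedSpace ℝ V] [FiniteDimensional ℝ V]

theorem map_nhds {f : V → V} (hf : ContDiff ℝ ∞ f) {x : V}
    (hi : ∀ v, fderiv ℝ f x v = 0 → v = 0) : map f (𝓝 x) = 𝓝 (f x) := by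
  have : CompleteSpace V := FiniteDimensional.complete ℝ V
  have h1 : HasStrictFDerivAt f (fderiv ℝ f x) x :=
    hf.contDiffAt.hasStrictFDerivAt (by simp)
  have h2 : Injective (fderiv ℝ f x : V →ₗ[ℝ] V) := (injective_iff_map_eq_zero _).2 hi
  let e : V ≃L[ℝ] V := (LinearEquiv.ofInjectiveEndo (fderiv ℝ f x : V →ₗ[ℝ] V) h2).toContinuousLinearEquiv
  have h3 : (e : V →L[ℝ] V) = fderiv ℝ f x := by
    ext v
    rfl
  rw [← h3] at h1
  exact h1.map_nhds_eq_of_equiv

theorem loc_inj {f : V → V} (hf : ContDiff ℝ ∞ f) {x : V}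
    (hi : ∀ v, fderiv ℝ f x v = 0 → v = 0) : ∃ U ∈ 𝓝 x, InjOn f U := by
  have : CompleteSpace V := FiniteDimensional.complete ℝ V
  have h1 : HasStrictFDerivAt f (fderiv ℝ f x) x :=
    hf.contDiffAt.hasStrictFDerivAt (by simp)
  have h2 : Injective (fderiv ℝ f x : V →ₗ[ℝ] V) := (injective_iff_map_eq_zero _).2 hi
  let e : V ≃L[ℝ] V := (LinearEquiv.ofInjectiveEndo (fderiv ℝ f x : V →ₗ[ℝ] V) h2).toContinuousLinearEquiv
  have h3 : (e : V →L[ℝ] V) = fderiv ℝ f x := by
    ext v
    rfl
  rw [← h3] at h1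
  refine ⟨(h1.toOpenPartialHomeomorph f).source,
    (h1.toOpenPartialHomeomorph f).open_source.mem_nhds h1.mem_toOpenPartialHomeomorph_source, ?_⟩
  exact (h1.toOpenPartialHomeomorph f).injOn

/-- A smooth map with injective derivatives which is the identity off a compact set is
bijective. -/
theorem bij_of_local {f : V → V} (hf : ContDiff ℝ ∞ f)
    (hi : ∀ x v, fderiv ℝ f x v = 0 → v = 0) {K : Set V} (hK : IsCompact K)
    (hoff : ∀ x, x ∉ K → f x = x) : Bijective f := by
  rcases subsingleton_or_nontrivial V with hV | hV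
  · exact ⟨fun _ _ _ => Subsingleton.elim _ _, fun y => ⟨y, Subsingleton.elim _ _⟩⟩
  have hfc := hf.continuous
  have hnc : NoncompactSpace V := NormedSpace.noncompactSpace ℝ V
  constructor
  · -- the set of pairs of distinct points with the same image
    let D : Set (V × V) := {q | f q.1 = f q.2 ∧ q.1 ≠ q.2}
    have hDclosed : IsClosed D := by
      rw [← isOpen_compl_iff, isOpen_iff_mem_nhds]
      rintro ⟨x, y⟩ hxy
      by_cases hne : f x = f y
      · have hxy' : x = y := by
          by_contra h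
          exact hxy ⟨hne, h⟩
        subst hxy'
        obtain ⟨U, hU, hinj⟩ := loc_inj hf (hi x)
        filter_upwards [prod_mem_nhds hU hU] with q hq
        rintro ⟨h1, h2⟩
        exact h2 (hinj hq.1 hq.2 h1)
      · have : ∀ᶠ q : V × V in 𝓝 (x, y), f q.1 ≠ f q.2 :=
          ((hfc.comp continuous_fst).continuousAt.ne_iff_eventually_ne
            (hfc.comp continuous_snd).continuousAt).1 hne
        filter_upwards [this] with q hq
        exact fun h => hq h.1
    have hDsub : D ⊆ (K ∪ f '' K) ×ˢ (K ∪ f '' K) := by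
      rintro ⟨x, y⟩ ⟨h1, h2⟩
      have key : ∀ x y : V, f x = f y → x ≠ y → x ∈ K ∪ f '' K := by
        intro x y h1 h2
        by_cases hx : x ∈ K
        · exact Or.inl hx
        · by_cases hy : y ∈ K
          · exact Or.inr ⟨y, hy, by rw [← h1, hoff x hx]⟩
          · rw [hoff x hx, hoff y hy] at h1
            exact absurd h1 h2
      exact ⟨key x y h1 h2, key y x h1.symm h2.symm⟩
    have hC : IsCompact (K ∪ f '' K) := hK.union (hK.image hfc)
    have hDc : IsCompact D := (hC.prod hC).of_isClosed_subset hDclosed hDsub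
    let S : Set V := (fun q : V × V => f q.1) '' D
    have hSc : IsCompact S := hDc.image (hfc.comp continuous_fst)
    have hSo : IsOpen S := by
      rw [isOpen_iff_mem_nhds]
      rintro _ ⟨⟨x, y⟩, ⟨h1, h2⟩, rfl⟩
      obtain ⟨A, B, hA, hB, hAB⟩ := t2_separation_nhds h2
      have e1 : f '' A ∈ 𝓝 (f x) := by
        rw [← map_nhds hf (hi x)]
        exact image_mem_map hA
      have e2 : f '' B ∈ 𝓝 (f x) := by
        have h3 : f x = f y := h1
        rw [h3, ← map_nhds hf (hi y)]
        exact image_mem_map hB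
      filter_upwards [e1, e2]
      rintro _ ⟨a, ha, rfl⟩ ⟨c, hc, hac⟩
      exact ⟨(a, c), ⟨hac.symm, fun h => disjoint_left.1 hAB ha (show a ∈ B from
        (show a = c from h) ▸ hc)⟩, rfl⟩
    intro x y hxy
    by_contra hne
    have hSn : S.Nonempty := ⟨f x, (x, y), ⟨hxy, hne⟩, rfl⟩
    have h4 := IsClopen.eq_univ ⟨hSc.isClosed, hSo⟩ hSn
    exact noncompact_univ V (h4 ▸ hSc)
  · have hr : IsClopen (range f) := by
      constructor
      · have h1 : range f = f '' K ∪ (range f ∩ {y | y ∉ f '' K}) := by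
          ext y
          constructor
          · intro h
            by_cases hy : y ∈ f '' K
            · exact Or.inl hy
            · exact Or.inr ⟨h, hy⟩
          · rintro (⟨x, -, rfl⟩ | h)
            · exact mem_range_self x
            · exact h.1
        rw [← isOpen_compl_iff, isOpen_iff_mem_nhds]
        intro y hy
        have hyK : y ∈ K := by
          by_contra h
          exact hy ⟨y, hoff y h⟩
        have h2 : y ∉ f '' K := fun ⟨x, _, hx⟩ => hy ⟨x, hx⟩
        by_contra hcon
        -- points of the range near `y`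
        have h3 : ∃ᶠ w in 𝓝 y, w ∈ range f := by
          rw [Filter.Frequently]
          exact hcon
        have h4 : ∃ᶠ w in 𝓝 y, w ∉ K ∧ w ≠ y := by
          refine (h3.and_eventually ((hK.image hfc).isClosed.isOpen_compl.mem_nhds h2)).mono ?_
          rintro w ⟨⟨x, rfl⟩, hw⟩
          have hx : x ∉ K := fun h => hw ⟨x, h, rfl⟩
          rw [hoff x hx]
          exact ⟨hx, fun h => hx (h ▸ hyK)⟩
        -- `f y = y` by continuity
        have h5 : f y = y := by
          by_contra hne
          have h6 : ∀ᶠ w in 𝓝 y, f w ≠ w :=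
            (hfc.continuousAt.ne_iff_eventually_ne continuousAt_id).1 hne
          obtain ⟨w, hw1, hw2⟩ := (h4.and_eventually h6).exists
          exact hw2 (hoff w hw1.1)
        exact hy ⟨y, h5⟩
      · rw [isOpen_iff_mem_nhds]
        rintro _ ⟨x, rfl⟩
        rw [← map_nhds hf (hi x)]
        exact mem_of_superset (image_mem_map univ_mem) (image_subset_range _ _)
    have h1 : range f = univ := hr.eq_univ ⟨f 0, mem_range_self 0⟩
    exact range_eq_univ.1 h1

end had

section inv

variable {V : Type} [NormedAddCommGroup V] [NormedSpace ℝ V] [FiniteDimensional ℝ V]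
  {P : Type} [NormedAddCommGroup P] [NormedSpace ℝ P] [FiniteDimensional ℝ P]

omit [FiniteDimensional ℝ V] [FiniteDimensional ℝ P] in
theorem fderiv_slice {W : Type} [NormedAddCommGroup W] [NormedSpace ℝ W] {Φ : P → V → W}
    (hΦ : ContDiff ℝ ∞ (fun q : P × V => Φ q.1 q.2)) (p : P) (z u : V) :
    fderiv ℝ (Φ p) z u = fderiv ℝ (fun q : P × V => Φ q.1 q.2) (p, z) (0, u) := by
  have h1 : HasFDerivAt (fun y : V => (p, y)) (ContinuousLinearMap.inr ℝ P V) z :=
    hasFDerivAt_prodMk_right p z
  have h2 : fderiv ℝ (Φ p) z =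
      (fderiv ℝ (fun q : P × V => Φ q.1 q.2) (p, z)).comp (ContinuousLinearMap.inr ℝ P V) :=
    ((hΦ.differentiable (by simp) (p, z)).hasFDerivAt.comp z h1).fderiv
  rw [h2]
  rfl

/-- smooth families of inverses -/
theorem inv_fam {Φ : P → V → V} (hΦ : ContDiff ℝ ∞ (fun q : P × V => Φ q.1 q.2))
    (hi : ∀ p z v, fderiv ℝ (Φ p) z v = 0 → v = 0) (hb : ∀ p, Bijective (Φ p)) :
    ∃ Ψ : P → V → V, ContDiff ℝ ∞ (fun q : P × V => Ψ q.1 q.2) ∧ (∀ p z, Ψ p (Φ p z) = z) ∧
      ∀ p z, Φ p (Ψ p z) = z := by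
  let F : P × V → P × V := fun q => (q.1, Φ q.1 q.2)
  have hF : ContDiff ℝ ∞ F := contDiff_fst.prodMk hΦ
  have hbF : Bijective F := by
    constructor
    · rintro ⟨p, z⟩ ⟨p', z'⟩ heq
      have h1 : p = p' := congrArg Prod.fst heq
      subst h1
      have h2 : Φ p z = Φ p z' := congrArg Prod.snd heq
      rw [(hb p).1 h2]
    · rintro ⟨p, z⟩
      obtain ⟨y, hy⟩ := (hb p).2 z
      exact ⟨(p, y), by show (p, Φ p y) = _; rw [hy]⟩
  have hiF : ∀ q v, fderiv ℝ F q v = 0 → v = 0 := by
    rintro ⟨p, z⟩ ⟨a, v⟩ hv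
    have h1 : HasFDerivAt F ((ContinuousLinearMap.fst ℝ P V).prod
        (fderiv ℝ (fun q : P × V => Φ q.1 q.2) (p, z))) (p, z) :=
      hasFDerivAt_fst.prodMk (hΦ.differentiable (by simp) (p, z)).hasFDerivAt
    rw [h1.fderiv] at hv
    have ha : a = 0 := congrArg Prod.fst hv
    subst ha
    have h2 : fderiv ℝ (fun q : P × V => Φ q.1 q.2) (p, z) (0, v) = 0 := congrArg Prod.snd hv
    rw [← fderiv_slice hΦ] at h2
    rw [hi p z v h2]
    rfl
  obtain ⟨G, hG, h1, h2⟩ := Q170.SC.exists_smooth_inv F hF hbF hiF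
  have h3 : ∀ q, (G q).1 = q.1 := fun q => by
    have := congrArg Prod.fst (h2 q)
    exact this
  refine ⟨fun p z => (G (p, z)).2, contDiff_snd.comp hG,
    fun p z => congrArg Prod.snd (h1 (p, z)), fun p z => ?_⟩
  have := congrArg Prod.snd (h2 (p, z))
  have h7 : Φ (G (p, z)).1 (G (p, z)).2 = z := this
  rwa [h3] at h7

end inv

end Pool.Agent.H822.BK
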