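import Mathlib
import Pool.Agent.H822.BK.Had

/-!
# The splitting `ℝ^{2(k+n)} = ℝ^{2k} × ℝ^{2n}`
-/

set_option autoImplicit false

open scoped ContDiff
open Set Filter Topology Function Metric
open Q170.SC Pool.Agent.H822.Ham Pool.Agent.H822.Pairs Pool.Agent.H822.PairsMain

namespace Pool.Agent.H822.BK

variable {k n : ℕ}

/-- the first `k` coordinate pairs -/
def cq : E (k + n) →L[ℝ] E k :=
  ContinuousLinearMap.prod
    ((ContinuousLinearMap.pi fun i : Fin k =>
      ContinuousLinearMap.proj (R := ℝ) (φ := fun _ : Fin (k + n) => ℝ) (Fin.castAdd n i)).comp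
      (ContinuousLinearMap.fst ℝ _ _))
    ((ContinuousLinearMap.pi fun i : Fin k =>
      ContinuousLinearMap.proj (R := ℝ) (φ := fun _ : Fin (k + n) => ℝ) (Fin.castAdd n i)).comp
      (ContinuousLinearMap.snd ℝ _ _))

/-- the other coordinate pairs -/
def ct : E (k + n) →L[ℝ] E n :=
  ContinuousLinearMap.prod
    ((ContinuousLinearMap.pi fun i : Fin n =>
      ContinuousLinearMap.proj (R := ℝ) (φ := fun _ : Fin (k + n) => ℝ) (Fin.natAdd k i)).comp
      (ContinuousLinearMap.fst ℝ _ _))
    ((ContinuousLinearMap.pi fun i : Fin n =>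
      ContinuousLinearMap.proj (R := ℝ) (φ := fun _ : Fin (k + n) => ℝ) (Fin.natAdd k i)).comp
      (ContinuousLinearMap.snd ℝ _ _))

theorem cq_apply (z : E (k + n)) :
    cq z = (fun i => z.1 (Fin.castAdd n i), fun i => z.2 (Fin.castAdd n i)) := rfl
theorem ct_apply (z : E (k + n)) :
    ct z = (fun i => z.1 (Fin.natAdd k i), fun i => z.2 (Fin.natAdd k i)) := rfl

/-- the point with given coordinates -/
def jn (q : E k) (w : E n) : E (k + n) := (Fin.append q.1 w.1, Fin.append q.2 w.2)

@[simp] theorem cq_jn (q : E k) (w : E n) : cq (jn q w) = q := by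
  rw [cq_apply, jn]
  apply Prod.ext
  · ext i; simp
  · ext i; simp

@[simp] theorem ct_jn (q : E k) (w : E n) : ct (jn q w) = w := by
  rw [ct_apply, jn]
  apply Prod.ext
  · ext i; simp
  · ext i; simp

theorem ext_jn {z z' : E (k + n)} (h1 : cq z = cq z') (h2 : ct z = ct z') : z = z' := by
  rw [cq_apply, cq_apply, Prod.mk.injEq] at h1
  rw [ct_apply, ct_apply, Prod.mk.injEq] at h2
  apply Prod.ext
  · ext i
    refine Fin.addCases (fun j => ?_) (fun j => ?_) i
    · exact congrFun h1.1 j
    · exact congrFun h2.1 j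
  · ext i
    refine Fin.addCases (fun j => ?_) (fun j => ?_) i
    · exact congrFun h1.2 j
    · exact congrFun h2.2 j

theorem jn_eta (z : E (k + n)) : jn (cq z) (ct z) = z := ext_jn (by simp) (by simp)

/-- `jn` as a linear map -/
noncomputable def jnL : E k × E n →L[ℝ] E (k + n) :=
  LinearMap.toContinuousLinearMap
    { toFun := fun q => jn q.1 q.2
      map_add' := fun _ _ => ext_jn (by simp) (by simp)
      map_smul' := fun _ _ => ext_jn (by simp) (by simp) }

theorem jnL_apply (q : E k) (w : E n) : jnL (q, w) = jn q w := rfl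

/-- the inclusion of the first factor -/
noncomputable def iq : E k →L[ℝ] E (k + n) := jnL.comp (ContinuousLinearMap.inl ℝ (E k) (E n))

/-- the inclusion of the second factor -/
noncomputable def it : E n →L[ℝ] E (k + n) := jnL.comp (ContinuousLinearMap.inr ℝ (E k) (E n))

theorem iq_apply (q : E k) : (iq q : E (k + n)) = jn q 0 := rfl
theorem it_apply (w : E n) : (it w : E (k + n)) = jn 0 w := rfl

@[simp] theorem cq_iq (q : E k) : cq (iq q : E (k + n)) = q := cq_jn q 0
@[simp] theorem ct_iq (q : E k) : ct (iq q : E (k + n)) = 0 := ct_jn q 0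
@[simp] theorem cq_it (w : E n) : cq (it w : E (k + n)) = 0 := cq_jn 0 w
@[simp] theorem ct_it (w : E n) : ct (it w : E (k + n)) = w := ct_jn 0 w

theorem eq_add (z : E (k + n)) : z = iq (cq z) + it (ct z) := ext_jn (by simp) (by simp)

theorem omega_jn (z z' : E (k + n)) :
    omega z z' = omega (cq z) (cq z') + omega (ct z) (ct z') := by
  rw [omega, Fin.sum_univ_add]
  rfl

theorem norm_cq_le (z : E (k + n)) : ‖cq z‖ ≤ ‖z‖ := by
  rw [cq_apply, Prod.norm_def]
  refine max_le ?_ ?_
  · exact ((pi_norm_le_iff_of_nonneg (norm_nonneg _)).2 fun i : Fin k =>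
      norm_le_pi_norm z.1 (Fin.castAdd n i)).trans (norm_fst_le z)
  · exact ((pi_norm_le_iff_of_nonneg (norm_nonneg _)).2 fun i : Fin k =>
      norm_le_pi_norm z.2 (Fin.castAdd n i)).trans (norm_snd_le z)

theorem norm_ct_le (z : E (k + n)) : ‖ct z‖ ≤ ‖z‖ := by
  rw [ct_apply, Prod.norm_def]
  refine max_le ?_ ?_
  · exact ((pi_norm_le_iff_of_nonneg (norm_nonneg _)).2 fun i : Fin n =>
      norm_le_pi_norm z.1 (Fin.natAdd k i)).trans (norm_fst_le z)
  · exact ((pi_norm_le_iff_of_nonneg (norm_nonneg _)).2 fun i : Fin n =>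
      norm_le_pi_norm z.2 (Fin.natAdd k i)).trans (norm_snd_le z)

theorem norm_le_of {z : E (k + n)} {R : ℝ} (h1 : ‖cq z‖ ≤ R) (h2 : ‖ct z‖ ≤ R) : ‖z‖ ≤ R := by
  have hR : 0 ≤ R := (norm_nonneg _).trans h1
  rw [cq_apply, Prod.norm_def] at h1
  rw [ct_apply, Prod.norm_def] at h2
  rw [Prod.norm_def]
  refine max_le ((pi_norm_le_iff_of_nonneg hR).2 fun i => ?_)
    ((pi_norm_le_iff_of_nonneg hR).2 fun i => ?_)
  · refine Fin.addCases (fun j => ?_) (fun j => ?_) i
    · exact (norm_le_pi_norm (fun i : Fin k => z.1 (Fin.castAdd n i)) j).trans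
        ((le_max_left _ _).trans h1)
    · exact (norm_le_pi_norm (fun i : Fin n => z.1 (Fin.natAdd k i)) j).trans
        ((le_max_left _ _).trans h2)
  · refine Fin.addCases (fun j => ?_) (fun j => ?_) i
    · exact (norm_le_pi_norm (fun i : Fin k => z.2 (Fin.castAdd n i)) j).trans
        ((le_max_right _ _).trans h1)
    · exact (norm_le_pi_norm (fun i : Fin n => z.2 (Fin.natAdd k i)) j).trans
        ((le_max_right _ _).trans h2)

theorem lt_norm {z : E (k + n)} {R : ℝ} : R < ‖z‖ ↔ R < ‖cq z‖ ∨ R < ‖ct z‖ := by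
  constructor
  · intro h
    by_contra hc
    rw [not_or, not_lt, not_lt] at hc
    exact absurd (norm_le_of hc.1 hc.2) (not_le.2 h)
  · rintro (h | h)
    · exact h.trans_le (norm_cq_le z)
    · exact h.trans_le (norm_ct_le z)

/-- the projections of `ℝ^{2k}` to the `x` and to the `y` coordinates -/
def px : E k →L[ℝ] E k := (ContinuousLinearMap.fst ℝ (Fin k → ℝ) (Fin k → ℝ)).prod 0

/-- the projection to the `y` coordinates -/
def py : E k →L[ℝ] E k := (0 : E k →L[ℝ] (Fin k → ℝ)).prod
  (ContinuousLinearMap.snd ℝ (Fin k → ℝ) (Fin k → ℝ))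

theorem px_apply (q : E k) : px q = (q.1, 0) := rfl
theorem py_apply (q : E k) : py q = (0, q.2) := rfl

theorem omega_px_px (u v : E k) : omega (px u) (px v) = 0 := by simp [omega, px_apply]
theorem omega_py_py (u v : E k) : omega (py u) (py v) = 0 := by simp [omega, py_apply]

theorem px_add_py (u : E k) : px u + py u = u := by
  rw [px_apply, py_apply]
  apply Prod.ext <;> simp

end Pool.Agent.H822.BK
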