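import Mathlib
import Pool.Agent.H822.BK.Co

/-!
# Transition maps and their primitives
-/

set_option autoImplicit false

open scoped ContDiff
open Set Filter Topology Function Metric
open Q170.SC Pool.Agent.H822.Ham Pool.Agent.H822.Pairs Pool.Agent.H822.PairsMain
open Pool.Agent.Q191.SY Pool.Agent.H822.EX

namespace Pool.Agent.H822.BK

section closed

variable {m m' : ℕ}

theorem fderiv_om {f : E m → E m'} (hf : ContDiff ℝ ∞ f) (z a b c : E m) :
    fderiv ℝ (fun z => omega (fderiv ℝ f z b) (fderiv ℝ f z c)) z a =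
      omega (fderiv ℝ (fderiv ℝ f) z a b) (fderiv ℝ f z c) +
        omega (fderiv ℝ f z b) (fderiv ℝ (fderiv ℝ f) z a c) := by
  have h0 : ContDiff ℝ ∞ (fderiv ℝ f) := hf.fderiv_right (by simp)
  have h1 : HasFDerivAt (fderiv ℝ f) (fderiv ℝ (fderiv ℝ f) z) z :=
    (h0.differentiable (by simp) z).hasFDerivAt
  have h2 : ∀ b : E m, HasFDerivAt (fun z => fderiv ℝ f z b)
      ((fderiv ℝ (fderiv ℝ f) z).flip b) z := by
    intro b
    have h3 := h1.clm_apply (hasFDerivAt_const b z)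
    refine h3.congr_fderiv ?_
    refine ContinuousLinearMap.ext fun v => ?_
    simp
  have h3 : HasFDerivAt (fun z => omL m' (fderiv ℝ f z b))
      ((omL m').comp ((fderiv ℝ (fderiv ℝ f) z).flip b)) z :=
    (omL m').hasFDerivAt.comp z (h2 b)
  have h4 := h3.clm_apply (h2 c)
  have h5 : fderiv ℝ (fun z => omega (fderiv ℝ f z b) (fderiv ℝ f z c)) z = _ := h4.fderiv
  rw [h5]
  show omega _ _ + omega _ _ = _
  rw [add_comm]
  rfl

/-- the pull back of `omega` by a smooth map is closed -/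
theorem closed_om {f : E m → E m'} (hf : ContDiff ℝ ∞ f) (z a b c : E m) :
    fderiv ℝ (fun z => omega (fderiv ℝ f z b) (fderiv ℝ f z c)) z a +
      fderiv ℝ (fun z => omega (fderiv ℝ f z c) (fderiv ℝ f z a)) z b +
      fderiv ℝ (fun z => omega (fderiv ℝ f z a) (fderiv ℝ f z b)) z c = 0 := by
  rw [fderiv_om hf, fderiv_om hf, fderiv_om hf]
  have hs : ∀ u v, fderiv ℝ (fderiv ℝ f) z u v = fderiv ℝ (fderiv ℝ f) z v u := by
    have : IsSymmSndFDerivAt ℝ f z := hf.contDiffAt.isSymmSndFDerivAt (by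
      simp only [minSmoothness_of_isRCLikeNormedField]
      exact WithTop.coe_le_coe.2 le_top)
    exact fun u v => this.eq u v
  rw [hs a b, hs a c, hs c b]
  rw [omega_swap (fderiv ℝ f z b) (fderiv ℝ (fderiv ℝ f) z c a),
    omega_swap (fderiv ℝ f z c) (fderiv ℝ (fderiv ℝ f) z b a),
    omega_swap (fderiv ℝ f z a) (fderiv ℝ (fderiv ℝ f) z b c)]
  ring

end closed

variable {k n : ℕ} {P : Type} [NormedAddCommGroup P] [NormedSpace ℝ P]

/-- the total map of a family over `P × ℝ^{2k}` -/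
def be (b : P × E k → SympCt n) (p : P) (z : E (k + n)) : E n := (b (p, cq z)).map (ct z)

/-- smooth families over `P × ℝ^{2k}`, trivial for large `z` -/
structure QFam (b : P × E k → SympCt n) (R : ℝ) : Prop where
  smooth : ContDiff ℝ ∞ (fun q : P × E (k + n) => be b q.1 q.2)
  off : ∀ p z, R < ‖z‖ → be b p z = ct z

/-- `B` is a primitive of `b` -/
structure Prim (b : P × E k → SympCt n) (B : P → E (k + n) → E k) (R : ℝ) : Prop where
  smooth : ContDiff ℝ ∞ (fun q : P × E (k + n) => B q.1 q.2)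
  off : ∀ p z, R < ‖z‖ → B p z = 0
  eq : ∀ p z (δ : E k) (v : E n), omega (fderiv ℝ (B p) z (it v)) δ =
    omega (fderiv ℝ (be b p) z (iq δ)) (fderiv ℝ (be b p) z (it v))

/-- the target map -/
def Th (b : P × E k → SympCt n) (B : P → E (k + n) → E k) (p : P) (z : E (k + n)) : E (k + n) :=
  jn (cq z + py (B p z)) (be b p z)

/-- the source map -/
def Xi (B : P → E (k + n) → E k) (p : P) (z : E (k + n)) : E (k + n) :=
  jn (cq z - px (B p z)) (ct z)

theorem slice {V W : Type} [NormedAddCommGroup V] [NormedSpace ℝ V] [NormedAddCommGroup W]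
    [NormedSpace ℝ W] {f : P → V → W} (h : ContDiff ℝ ∞ (fun q : P × V => f q.1 q.2)) (p : P) :
    ContDiff ℝ ∞ (f p) := h.comp (contDiff_const.prodMk contDiff_id)

section one

variable {b : P × E k → SympCt n} {B : P → E (k + n) → E k} {R : ℝ}

theorem hasFDerivAt_jn (q : E k) (w : E n) :
    HasFDerivAt (fun w : E n => (jn q w : E (k + n))) (it : E n →L[ℝ] E (k + n)) w := by
  have h2 : (fun w : E n => (jn q w : E (k + n))) = fun w => (iq q : E (k + n)) + it w := by
    ext1 w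
    exact ext_jn (by simp) (by simp)
  rw [h2]
  exact (it : E n →L[ℝ] E (k + n)).hasFDerivAt.const_add _

theorem QFam.vert (h : QFam b R) (p : P) (z : E (k + n)) (v : E n) :
    fderiv ℝ (be b p) z (it v) = fderiv ℝ (b (p, cq z)).map (ct z) v := by
  have h1 : (b (p, cq z)).map = fun u => be b p (jn (cq z) u) := by
    ext1 u
    rw [be, cq_jn, ct_jn]
  have h2 : HasFDerivAt (be b p) (fderiv ℝ (be b p) z) (jn (cq z) (ct z)) := by
    rw [jn_eta]
    exact ((slice h.smooth p).differentiable (by simp) z).hasFDerivAt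
  have h3 := h2.comp (ct z) (hasFDerivAt_jn (cq z) (ct z))
  have h4 : fderiv ℝ (fun u => be b p (jn (cq z) u)) (ct z) = _ := h3.fderiv
  rw [h1, h4]
  rfl

theorem QFam.symp (h : QFam b R) (p : P) (z : E (k + n)) (v v' : E n) :
    omega (fderiv ℝ (be b p) z (it v)) (fderiv ℝ (be b p) z (it v')) = omega v v' := by
  rw [h.vert, h.vert]
  exact (b (p, cq z)).2.1.form _ _ _

theorem th_smooth (h : QFam b R) (hB : ContDiff ℝ ∞ (fun q : P × E (k + n) => B q.1 q.2)) :
    ContDiff ℝ ∞ (fun q : P × E (k + n) => Th b B q.1 q.2) := by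
  have h1 : ContDiff ℝ ∞ (fun q : P × E (k + n) => (cq q.2 : E k) + py (B q.1 q.2)) :=
    ((cq : E (k + n) →L[ℝ] E k).contDiff.comp contDiff_snd).add (py.contDiff.comp hB)
  exact (jnL : E k × E n →L[ℝ] E (k + n)).contDiff.comp (h1.prodMk h.smooth)

theorem xi_smooth (hB : ContDiff ℝ ∞ (fun q : P × E (k + n) => B q.1 q.2)) :
    ContDiff ℝ ∞ (fun q : P × E (k + n) => Xi B q.1 q.2) := by
  have h1 : ContDiff ℝ ∞ (fun q : P × E (k + n) => (cq q.2 : E k) - px (B q.1 q.2)) :=
    ((cq : E (k + n) →L[ℝ] E k).contDiff.comp contDiff_snd).sub (px.contDiff.comp hB)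
  exact (jnL : E k × E n →L[ℝ] E (k + n)).contDiff.comp
    (h1.prodMk ((ct : E (k + n) →L[ℝ] E n).contDiff.comp contDiff_snd))

theorem fderiv_th (h : QFam b R) (hB : ContDiff ℝ ∞ (fun q : P × E (k + n) => B q.1 q.2))
    (p : P) (z ζ : E (k + n)) : fderiv ℝ (Th b B p) z ζ =
      jn (cq ζ + py (fderiv ℝ (B p) z ζ)) (fderiv ℝ (be b p) z ζ) := by
  have h1 := ((slice h.smooth p).differentiable (by simp) z).hasFDerivAt
  have h2 := ((slice hB p).differentiable (by simp) z).hasFDerivAt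
  have h3 := ((cq : E (k + n) →L[ℝ] E k).hasFDerivAt.add
    ((py : E k →L[ℝ] E k).hasFDerivAt.comp z h2)).prodMk h1
  have h4 := (jnL : E k × E n →L[ℝ] E (k + n)).hasFDerivAt.comp z h3
  have h5 : fderiv ℝ (Th b B p) z = _ := h4.fderiv
  rw [h5]
  rfl

theorem fderiv_xi (hB : ContDiff ℝ ∞ (fun q : P × E (k + n) => B q.1 q.2))
    (p : P) (z ζ : E (k + n)) : fderiv ℝ (Xi B p) z ζ =
      jn (cq ζ - px (fderiv ℝ (B p) z ζ)) (ct ζ) := by
  have h2 := ((slice hB p).differentiable (by simp) z).hasFDerivAt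
  have h3 := ((cq : E (k + n) →L[ℝ] E k).hasFDerivAt.sub
    ((px : E k →L[ℝ] E k).hasFDerivAt.comp z h2)).prodMk
    (ct : E (k + n) →L[ℝ] E n).hasFDerivAt
  have h4 := (jnL : E k × E n →L[ℝ] E (k + n)).hasFDerivAt.comp z h3
  have h5 : fderiv ℝ (Xi B p) z = _ := h4.fderiv
  rw [h5]
  rfl

/-- the difference of the two forms -/
theorem form_diff (h : QFam b R) (hB : ContDiff ℝ ∞ (fun q : P × E (k + n) => B q.1 q.2))
    (p : P) (z ζ ζ' : E (k + n)) :
    omega (fderiv ℝ (Th b B p) z ζ) (fderiv ℝ (Th b B p) z ζ') -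
      omega (fderiv ℝ (Xi B p) z ζ) (fderiv ℝ (Xi B p) z ζ') =
    omega (fderiv ℝ (B p) z ζ) (cq ζ') - omega (fderiv ℝ (B p) z ζ') (cq ζ) +
      omega (fderiv ℝ (be b p) z ζ) (fderiv ℝ (be b p) z ζ') - omega (ct ζ) (ct ζ') := by
  rw [fderiv_th h hB, fderiv_th h hB, fderiv_xi hB, fderiv_xi hB, omega_jn, omega_jn]
  simp only [cq_jn, ct_jn]
  set a := fderiv ℝ (B p) z ζ
  set a' := fderiv ℝ (B p) z ζ'
  have e1 : omega a (cq ζ') = omega (px a) (cq ζ') + omega (py a) (cq ζ') := by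
    rw [← omega_add_left, px_add_py]
  have e2 : omega a' (cq ζ) = omega (px a') (cq ζ) + omega (py a') (cq ζ) := by
    rw [← omega_add_left, px_add_py]
  have e3 : ∀ u v : E k, omega (u - v) = omega u - omega v := by
    intro u v
    ext w
    show omega (u - v) w = omega u w - omega v w
    rw [sub_eq_add_neg, omega_add_left, ← neg_one_smul ℝ v, omega_smul_left]
    ring
  have e4 : ∀ w u v : E k, omega w (u - v) = omega w u - omega w v := by
    intro w u v
    rw [sub_eq_add_neg, omega_add_right, ← neg_one_smul ℝ v, omega_smul_right]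
    ring
  rw [e1, e2, omega_add_left, omega_add_right, omega_add_right, omega_py_py, e3]
  simp only [Pi.sub_apply]
  rw [e4, e4, omega_px_px, omega_swap (cq ζ) (py a'), omega_swap (cq ζ) (px a')]
  ring

/-- the two forms agree -/
theorem form_eq (hn : 0 < n) (h : QFam b R) (hB : Prim b B R) (p : P) (z ζ ζ' : E (k + n)) :
    omega (fderiv ℝ (Th b B p) z ζ) (fderiv ℝ (Th b B p) z ζ') =
      omega (fderiv ℝ (Xi B p) z ζ) (fderiv ℝ (Xi B p) z ζ') := by
  have hth := slice (th_smooth h hB.smooth) p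
  have hxi := slice (xi_smooth hB.smooth) p
  -- one vertical vector
  have h1 : ∀ (z ζ : E (k + n)) (v : E n),
      omega (fderiv ℝ (Th b B p) z ζ) (fderiv ℝ (Th b B p) z (it v)) -
      omega (fderiv ℝ (Xi B p) z ζ) (fderiv ℝ (Xi B p) z (it v)) = 0 := by
    intro z ζ v
    rw [form_diff h hB.smooth, hB.eq, cq_it, EX.omega_zero_right, ct_it]
    have e1 : fderiv ℝ (be b p) z ζ = fderiv ℝ (be b p) z (iq (cq ζ)) +
        fderiv ℝ (be b p) z (it (ct ζ)) := by
      rw [← map_add, ← eq_add]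
    rw [e1, omega_add_left, h.symp]
    ring
  have h1' : ∀ (z ζ : E (k + n)) (v : E n),
      omega (fderiv ℝ (Th b B p) z (it v)) (fderiv ℝ (Th b B p) z ζ) -
      omega (fderiv ℝ (Xi B p) z (it v)) (fderiv ℝ (Xi B p) z ζ) = 0 := by
    intro z ζ v
    rw [omega_swap, omega_swap (fderiv ℝ (Xi B p) z (it v))]
    linarith [h1 z ζ v]
  -- two horizontal vectors
  have h2 : ∀ (z : E (k + n)) (δ δ' : E k),
      omega (fderiv ℝ (Th b B p) z (iq δ)) (fderiv ℝ (Th b B p) z (iq δ')) -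
      omega (fderiv ℝ (Xi B p) z (iq δ)) (fderiv ℝ (Xi B p) z (iq δ')) = 0 := by
    intro z δ δ'
    let g : (E (k + n) → E (k + n)) → E (k + n) → E (k + n) → E (k + n) → ℝ := fun f u v z =>
      omega (fderiv ℝ f z u) (fderiv ℝ f z v)
    have gd : ∀ (f : E (k + n) → E (k + n)), ContDiff ℝ ∞ f → ∀ u v,
        Differentiable ℝ (g f u v) := by
      intro f hf u v
      have e0 : ContDiff ℝ ∞ (fderiv ℝ f) := hf.fderiv_right (by simp)
      have e1 : ContDiff ℝ ∞ (fun z => fderiv ℝ f z u) := e0.clm_apply contDiff_const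
      have e2 : ContDiff ℝ ∞ (fun z => fderiv ℝ f z v) := e0.clm_apply contDiff_const
      have e3 : ContDiff ℝ ∞ (fun z => omL (k + n) (fderiv ℝ f z u) (fderiv ℝ f z v)) :=
        ((omL (k + n)).contDiff.comp e1).clm_apply e2
      exact e3.differentiable (by simp)
    let η : E (k + n) → ℝ := fun z => g (Th b B p) (iq δ) (iq δ') z - g (Xi B p) (iq δ) (iq δ') z
    have hηd : Differentiable ℝ η := (gd _ hth _ _).sub (gd _ hxi _ _)
    have hη : ∀ z v, fderiv ℝ η z (it v) = 0 := by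
      intro z v
      have e1 := closed_om hth z (it v) (iq δ) (iq δ')
      have e2 := closed_om hxi z (it v) (iq δ) (iq δ')
      have e3 : fderiv ℝ η z = fderiv ℝ (g (Th b B p) (iq δ) (iq δ')) z -
          fderiv ℝ (g (Xi B p) (iq δ) (iq δ')) z :=
        fderiv_sub (gd _ hth _ _ z) (gd _ hxi _ _ z)
      have e4 : ∀ u : E (k + n), g (Th b B p) u (it v) = g (Xi B p) u (it v) := by
        intro u
        ext y
        have := h1 y u v
        show omega _ _ = omega _ _
        linarith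
      have e5 : ∀ u : E (k + n), g (Th b B p) (it v) u = g (Xi B p) (it v) u := by
        intro u
        ext y
        have := h1' y u v
        show omega _ _ = omega _ _
        linarith
      have e1' : fderiv ℝ (g (Th b B p) (iq δ) (iq δ')) z (it v) +
        fderiv ℝ (g (Th b B p) (iq δ') (it v)) z (iq δ) +
        fderiv ℝ (g (Th b B p) (it v) (iq δ)) z (iq δ') = 0 := e1
      have e2' : fderiv ℝ (g (Xi B p) (iq δ) (iq δ')) z (it v) +
        fderiv ℝ (g (Xi B p) (iq δ') (it v)) z (iq δ) +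
        fderiv ℝ (g (Xi B p) (it v) (iq δ)) z (iq δ') = 0 := e2
      rw [e4, e5] at e1'
      rw [e3, _root_.sub_apply]
      linarith
    -- constancy
    have h3 : ∀ w, HasFDerivAt (fun w => η (jn (cq z) w)) (0 : E n →L[ℝ] ℝ) w := by
      intro w
      have e1 := (hηd (jn (cq z) w)).hasFDerivAt.comp w (hasFDerivAt_jn (cq z) w)
      refine e1.congr_fderiv ?_
      refine ContinuousLinearMap.ext fun v => ?_
      exact hη _ v
    obtain ⟨w₁, hw₁⟩ := exists_far hn R
    have h4 : η (jn (cq z) (ct z)) = η (jn (cq z) w₁) := is_const_of_fderiv_eq_zero (𝕜 := ℝ)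
      (f := fun w => η (jn (cq z) w))
      (fun w => (h3 w).differentiableAt) (fun w => (h3 w).fderiv) _ _
    rw [jn_eta] at h4
    show η z = 0
    rw [h4]
    have h5 : R < ‖(jn (cq z) w₁ : E (k + n))‖ := by
      rw [lt_norm, cq_jn, ct_jn]
      exact Or.inr hw₁
    have h6 : ∀ᶠ y : E (k + n) in 𝓝 (jn (cq z) w₁), R < ‖y‖ :=
      continuousAt_const.eventually_lt continuous_norm.continuousAt h5
    have h7 : Th b B p =ᶠ[𝓝 (jn (cq z) w₁)] Xi B p := by
      filter_upwards [h6] with y hy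
      rw [Th, Xi, hB.off p y hy, h.off p y hy, map_zero, map_zero, add_zero, sub_zero]
    have h8 := h7.fderiv_eq (𝕜 := ℝ)
    show omega _ _ - omega _ _ = 0
    rw [h8, sub_self]
  -- the general case
  have key : ∀ F : E (k + n) → E (k + n), omega (fderiv ℝ F z ζ) (fderiv ℝ F z ζ') =
      omega (fderiv ℝ F z (iq (cq ζ))) (fderiv ℝ F z (iq (cq ζ'))) +
      omega (fderiv ℝ F z (iq (cq ζ))) (fderiv ℝ F z (it (ct ζ'))) +
      omega (fderiv ℝ F z (it (ct ζ))) (fderiv ℝ F z ζ') := by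
    intro F
    conv_lhs => rw [eq_add ζ, map_add, omega_add_left]
    conv_lhs => lhs; rw [eq_add ζ', map_add, omega_add_right]
  rw [key, key (Xi B p)]
  linarith [h2 z (cq ζ) (cq ζ'), h1 z (iq (cq ζ)) (ct ζ'), h1' z ζ' (ct ζ)]

end one

end Pool.Agent.H822.BK
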