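import Mathlib
import Pool.Agent.H822.BK.Gen

/-!
# Block positive symplectomorphisms and their transition maps
-/

set_option autoImplicit false

open scoped ContDiff
open Set Filter Topology Function Metric
open Q170.SC Pool.Agent.H822.Ham Pool.Agent.H822.Pairs Pool.Agent.H822.PairsMain
open Pool.Agent.Q191.SY Pool.Agent.H822.EX

namespace Pool.Agent.H822.BK

variable {k n : ℕ} {P : Type} [NormedAddCommGroup P] [NormedSpace ℝ P]

/-- the `k × k` matrix `∂(X ∘ φ)/∂x` has no eigenvalue in `(-∞, 0]` -/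
def Pos (φ : SympCt (k + n)) : Prop := ∀ z (v : E k) (t : ℝ), 0 ≤ t → py v = 0 →
  px (cq (fderiv ℝ φ.map z (iq v))) = -(t • v) → v = 0

/-- the corresponding condition for primitives -/
def Good (B : P → E (k + n) → E k) : Prop := ∀ p z (v : E k) (t : ℝ), 0 ≤ t → py v = 0 →
  v - px (fderiv ℝ (B p) z (iq v)) = -(t • v) → v = 0

/-- `b` is the transition map of `φ` -/
def IsTrans (φ : P → SympCt (k + n)) (b : P × E k → SympCt n) : Prop :=
  ∀ p z, ct ((φ p).map z) = (b (p, px (cq ((φ p).map z)) + py (cq z))).map (ct z)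

theorem px_px (u : E k) : px (px u) = px u := rfl
theorem py_py (u : E k) : py (py u) = py u := rfl
theorem px_py (u : E k) : px (py u) = 0 := rfl
theorem py_px (u : E k) : py (px u) = 0 := rfl

theorem px_of {v : E k} (h : py v = 0) : px v = v := by
  have := px_add_py v
  rwa [h, add_zero] at this

theorem surj_of_inj {m : ℕ} {A : E m →L[ℝ] E m} (h : ∀ v, A v = 0 → v = 0) (w : E m) :
    ∃ v, A v = w := by
  have : Surjective (A : E m →ₗ[ℝ] E m) :=
    LinearMap.surjective_of_injective ((injective_iff_map_eq_zero _).2 h)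
  exact this w

theorem nondeg {m : ℕ} {u : E m} (h : ∀ v, omega u v = 0) : u = 0 :=
  omega_inj fun w => by rw [h, EX.omega_zero_left]

section back

variable {b : P × E k → SympCt n} {B : P → E (k + n) → E k} {R : ℝ}

theorem xi_inj (hB : Prim b B R) (hG : Good B) (p : P) (z ζ : E (k + n))
    (h : fderiv ℝ (Xi B p) z ζ = 0) : ζ = 0 := by
  rw [fderiv_xi hB.smooth] at h
  have h1 : ct ζ = 0 := by
    have := congrArg ct h
    rwa [ct_jn, map_zero] at this
  have h2 : cq ζ - px (fderiv ℝ (B p) z ζ) = 0 := by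
    have := congrArg cq h
    rwa [cq_jn, map_zero] at this
  have h3 : ζ = iq (cq ζ) := by
    conv_lhs => rw [eq_add ζ]
    rw [h1, map_zero, add_zero]
  have h4 : py (cq ζ) = 0 := by
    rw [sub_eq_zero] at h2
    rw [h2, py_px]
  have h5 := hG p z (cq ζ) 0 le_rfl h4 (by rw [← h3, h2, zero_smul, neg_zero])
  rw [h3, h5, map_zero]

theorem xi_off (hB : Prim b B R) (p : P) (z : E (k + n)) (hz : R < ‖z‖) : Xi B p z = z := by
  rw [Xi, hB.off p z hz, map_zero, sub_zero, jn_eta]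

theorem th_off (h : QFam b R) (hB : Prim b B R) (p : P) (z : E (k + n)) (hz : R < ‖z‖) :
    Th b B p z = z := by
  rw [Th, hB.off p z hz, map_zero, add_zero, h.off p z hz, jn_eta]

theorem not_ball {V : Type} [NormedAddCommGroup V] {z : V} {R : ℝ} (h : z ∉ closedBall (0 : V) R) :
    R < ‖z‖ := by rwa [mem_closedBall_zero_iff, not_le] at h

theorem xi_bij (hB : Prim b B R) (hG : Good B) (p : P) : Bijective (Xi B p) :=
  bij_of_local (slice (xi_smooth hB.smooth) p) (xi_inj hB hG p) (isCompact_closedBall 0 R)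
    fun z hz => xi_off hB p z (not_ball hz)

/-- from transition maps to symplectomorphisms -/
theorem exists_back [FiniteDimensional ℝ P] (hn : 0 < n) (h : QFam b R) (hB : Prim b B R)
    (hG : Good B) :
    ∃ φ : P → SympCt (k + n), ContDiff ℝ ∞ (fun q : P × E (k + n) => (φ q.1).map q.2) ∧
      (∀ p, SuppIn (closedBall 0 R) (φ p).perm) ∧
      (∀ p z, (φ p).map (Xi B p z) = Th b B p z) ∧ (∀ p, Pos (φ p)) ∧ IsTrans φ b := by
  obtain ⟨Ψ, hΨ, h1, h2⟩ := inv_fam (xi_smooth hB.smooth) (xi_inj hB hG) (xi_bij hB hG)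
  have hth := th_smooth h hB.smooth
  have hsm : ContDiff ℝ ∞ (fun q : P × E (k + n) => Th b B q.1 (Ψ q.1 q.2)) :=
    hth.comp (contDiff_fst.prodMk hΨ)
  have hΨd : ∀ p z u, fderiv ℝ (Xi B p) (Ψ p z) (fderiv ℝ (Ψ p) z u) = u := by
    intro p z u
    have h7 : (Xi B p) ∘ (Ψ p) = id := funext (h2 p)
    have h8 : (fderiv ℝ (Xi B p) (Ψ p z)).comp (fderiv ℝ (Ψ p) z) =
        ContinuousLinearMap.id ℝ (E (k + n)) := by
      rw [← fderiv_id (𝕜 := ℝ) (x := z), ← h7]
      exact (fderiv_comp z ((slice (xi_smooth hB.smooth) p).differentiable (by simp) _)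
        ((slice hΨ p).differentiable (by simp) z)).symm
    exact DFunLike.congr_fun h8 u
  have hd : ∀ p z u, fderiv ℝ (fun z => Th b B p (Ψ p z)) z u =
      fderiv ℝ (Th b B p) (Ψ p z) (fderiv ℝ (Ψ p) z u) := by
    intro p z u
    have h3 : fderiv ℝ (fun z => Th b B p (Ψ p z)) z = _ :=
      fderiv_comp z ((slice hth p).differentiable (by simp) _)
        ((slice hΨ p).differentiable (by simp) z)
    rw [h3]
    rfl
  have hthinj : ∀ p z ζ, fderiv ℝ (Th b B p) z ζ = 0 → ζ = 0 := by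
    intro p z ζ hζ
    refine xi_inj hB hG p z ζ (nondeg fun w => ?_)
    obtain ⟨v, rfl⟩ := surj_of_inj (xi_inj hB hG p z) w
    rw [← form_eq hn h hB, hζ, EX.omega_zero_left]
  have hthbij : ∀ p, Bijective (Th b B p) := fun p =>
    bij_of_local (slice hth p) (hthinj p) (isCompact_closedBall 0 R)
      fun z hz => th_off h hB p z (not_ball hz)
  have hΨinj : ∀ p, Injective (Ψ p) := fun p x y hxy => by
    rw [← h2 p x, hxy, h2]
  choose φ hφ hφs using fun p => exists_symp (fun z => Th b B p (Ψ p z))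
    (slice (f := fun p z => Th b B p (Ψ p z)) hsm p)
    (fun z u v => by rw [hd, hd, form_eq hn h hB, hΨd, hΨd])
    ((hthbij p).1.comp (hΨinj p)) (closedBall 0 R) (isCompact_closedBall _ _) (fun z hz => by
      have hz' := not_ball hz
      have h3 : Ψ p z = z := by
        have h4 := h1 p z
        rwa [xi_off hB p z hz'] at h4
      rw [h3, th_off h hB p z hz'])
  have hφΞ : ∀ p z, (φ p).map (Xi B p z) = Th b B p z := fun p z => by rw [hφ, h1]
  refine ⟨φ, ?_, hφs, hφΞ, fun p z' w t ht hw hJ => ?_, fun p z' => ?_⟩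
  · have : (fun q : P × E (k + n) => (φ q.1).map q.2) = fun q => Th b B q.1 (Ψ q.1 q.2) :=
      funext fun q => hφ q.1 q.2
    rw [this]
    exact hsm
  · obtain ⟨z, rfl⟩ := (xi_bij hB hG p).2 z'
    obtain ⟨ζ, hζ⟩ := surj_of_inj (xi_inj hB hG p z) (iq w)
    have hζ' := hζ
    rw [fderiv_xi hB.smooth] at hζ'
    have e1 : ct ζ = 0 := by
      have := congrArg ct hζ'
      rwa [ct_jn, ct_iq] at this
    have e2 : cq ζ - px (fderiv ℝ (B p) z ζ) = w := by
      have := congrArg cq hζ'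
      rwa [cq_jn, cq_iq] at this
    have e3 : ζ = iq (cq ζ) := by
      conv_lhs => rw [eq_add ζ]
      rw [e1, map_zero, add_zero]
    have e4 : py (cq ζ) = 0 := by
      have := congrArg py e2
      rwa [map_sub, py_px, sub_zero, hw] at this
    -- the derivative of `φ`
    have e5 : fderiv ℝ (φ p).map (Xi B p z) (iq w) = fderiv ℝ (Th b B p) z ζ := by
      have e6 : (fun z => (φ p).map (Xi B p z)) = Th b B p := funext (hφΞ p)
      have e7 : fderiv ℝ (fun z => (φ p).map (Xi B p z)) z = _ :=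
        fderiv_comp z ((map_smooth (φ p)).differentiable (by simp) _)
          ((slice (xi_smooth hB.smooth) p).differentiable (by simp) z)
      rw [e6] at e7
      rw [e7, ← hζ]
      rfl
    rw [e5, fderiv_th h hB.smooth, cq_jn, map_add, px_py, add_zero, px_of e4] at hJ
    have e8 : cq ζ = 0 := by
      rcases ht.eq_or_lt with h0 | h0
      · rw [hJ, ← h0, zero_smul, neg_zero]
      · refine hG p z (cq ζ) (1 / t) (by positivity) e4 ?_
        rw [← e3, e2]
        have : w = -((1 / t) • cq ζ) := by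
          rw [hJ, smul_neg, neg_neg, smul_smul, one_div, inv_mul_cancel₀ h0.ne', one_smul]
        exact this
    rw [e3, e8, map_zero, map_zero] at e2
    rw [← e2]
    simp
  · obtain ⟨z, rfl⟩ := (xi_bij hB hG p).2 z'
    rw [hφΞ, Th, ct_jn, cq_jn, map_add, px_py, add_zero, Xi, cq_jn, ct_jn, map_sub, py_px,
      sub_zero, px_add_py]
    rfl

/-- primitives are unique -/
theorem Prim.unique (hn : 0 < n) {B' : P → E (k + n) → E k} {R' : ℝ} (h : Prim b B R)
    (h' : Prim b B' R') : B = B' := by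
  ext1 p
  ext1 z
  have hd := (slice h.smooth p).differentiable (by simp)
  have hd' := (slice h'.smooth p).differentiable (by simp)
  let η : E n → E k := fun w => B p (jn (cq z) w) - B' p (jn (cq z) w)
  have h1 : ∀ w, HasFDerivAt η (0 : E n →L[ℝ] E k) w := by
    intro w
    have e1 := (hd (jn (cq z) w)).hasFDerivAt.comp w (hasFDerivAt_jn (cq z) w)
    have e2 := (hd' (jn (cq z) w)).hasFDerivAt.comp w (hasFDerivAt_jn (cq z) w)
    refine (e1.sub e2).congr_fderiv ?_
    refine ContinuousLinearMap.ext fun v => ?_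
    refine nondeg fun δ => ?_
    show omega (fderiv ℝ (B p) (jn (cq z) w) (it v) - fderiv ℝ (B' p) (jn (cq z) w) (it v)) δ = 0
    rw [sub_eq_add_neg, omega_add_left, ← neg_one_smul ℝ, omega_smul_left, h.eq, h'.eq]
    ring
  obtain ⟨w₁, hw₁⟩ := exists_far hn (max R R')
  have h2 : η (ct z) = η w₁ := is_const_of_fderiv_eq_zero (𝕜 := ℝ)
    (fun w => (h1 w).differentiableAt) (fun w => (h1 w).fderiv) _ _
  have h3 : η w₁ = 0 := by
    show B p (jn (cq z) w₁) - B' p (jn (cq z) w₁) = 0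
    rw [h.off _ _ (lt_norm.2 (Or.inr ?_)), h'.off _ _ (lt_norm.2 (Or.inr ?_)), sub_zero]
    · rw [ct_jn]; exact (le_max_right _ _).trans_lt hw₁
    · rw [ct_jn]; exact (le_max_left _ _).trans_lt hw₁
  rw [h3] at h2
  have h4 : B p (jn (cq z) (ct z)) - B' p (jn (cq z) (ct z)) = 0 := h2
  rw [jn_eta, sub_eq_zero] at h4
  exact h4

end back

section fwd

variable [FiniteDimensional ℝ P] {φ : P → SympCt (k + n)} {R : ℝ}

/-- the mixed coordinates -/
def Om (φ : P → SympCt (k + n)) (p : P) (z : E (k + n)) : E (k + n) :=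
  jn (px (cq ((φ p).map z)) + py (cq z)) (ct z)

omit [FiniteDimensional ℝ P] in
theorem om_smooth (hφ : ContDiff ℝ ∞ (fun q : P × E (k + n) => (φ q.1).map q.2)) :
    ContDiff ℝ ∞ (fun q : P × E (k + n) => Om φ q.1 q.2) := by
  have h1 : ContDiff ℝ ∞ (fun q : P × E (k + n) => px (cq ((φ q.1).map q.2) : E k) +
      py (cq q.2 : E k)) :=
    (px.contDiff.comp ((cq : E (k + n) →L[ℝ] E k).contDiff.comp hφ)).add
      (py.contDiff.comp ((cq : E (k + n) →L[ℝ] E k).contDiff.comp contDiff_snd))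
  exact (jnL : E k × E n →L[ℝ] E (k + n)).contDiff.comp
    (h1.prodMk ((ct : E (k + n) →L[ℝ] E n).contDiff.comp contDiff_snd))

omit [NormedAddCommGroup P] [NormedSpace ℝ P] [FiniteDimensional ℝ P] in
theorem fderiv_Om (p : P) (z ζ : E (k + n)) : fderiv ℝ (Om φ p) z ζ =
    jn (px (cq (fderiv ℝ (φ p).map z ζ)) + py (cq ζ)) (ct ζ) := by
  have h2 := ((map_smooth (φ p)).differentiable (by simp) z).hasFDerivAt
  have h3 := (((px : E k →L[ℝ] E k).hasFDerivAt.comp z
    ((cq : E (k + n) →L[ℝ] E k).hasFDerivAt.comp z h2)).add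
    ((py : E k →L[ℝ] E k).hasFDerivAt.comp z (cq : E (k + n) →L[ℝ] E k).hasFDerivAt)).prodMk
    (ct : E (k + n) →L[ℝ] E n).hasFDerivAt
  have h4 := (jnL : E k × E n →L[ℝ] E (k + n)).hasFDerivAt.comp z h3
  have h5 : fderiv ℝ (Om φ p) z = _ := h4.fderiv
  rw [h5]
  rfl

omit [NormedAddCommGroup P] [NormedSpace ℝ P] [FiniteDimensional ℝ P] in
theorem om_inj (hP : ∀ p, Pos (φ p)) (p : P) (z ζ : E (k + n))
    (h : fderiv ℝ (Om φ p) z ζ = 0) : ζ = 0 := by
  rw [fderiv_Om] at h
  have h1 : ct ζ = 0 := by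
    have := congrArg ct h
    rwa [ct_jn, map_zero] at this
  have h2 : px (cq (fderiv ℝ (φ p).map z ζ)) + py (cq ζ) = 0 := by
    have := congrArg cq h
    rwa [cq_jn, map_zero] at this
  have h3 : ζ = iq (cq ζ) := by
    conv_lhs => rw [eq_add ζ]
    rw [h1, map_zero, add_zero]
  have h4 : py (cq ζ) = 0 := by
    have := congrArg py h2
    rwa [map_add, py_px, zero_add, py_py, map_zero] at this
  rw [h4, add_zero] at h2
  have h5 := hP p z (cq ζ) 0 le_rfl h4 (by rw [← h3, h2, zero_smul, neg_zero])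
  rw [h3, h5, map_zero]

omit [NormedAddCommGroup P] [NormedSpace ℝ P] [FiniteDimensional ℝ P] in
theorem om_off (hoff : ∀ p z, R < ‖z‖ → (φ p).map z = z) (p : P) (z : E (k + n))
    (hz : R < ‖z‖) : Om φ p z = z := by
  rw [Om, hoff p z hz, px_add_py, jn_eta]

omit [NormedAddCommGroup P] [NormedSpace ℝ P] [FiniteDimensional ℝ P] in
theorem om_bij (hoff : ∀ p z, R < ‖z‖ → (φ p).map z = z) (hP : ∀ p, Pos (φ p)) (p : P) :
    Bijective (Om φ p) := by
  have hs : ContDiff ℝ ∞ (Om φ p) := by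
    have h1 : ContDiff ℝ ∞ (fun z : E (k + n) => px (cq ((φ p).map z) : E k) +
        py (cq z : E k)) :=
      (px.contDiff.comp ((cq : E (k + n) →L[ℝ] E k).contDiff.comp (map_smooth (φ p)))).add
        (py.contDiff.comp (cq : E (k + n) →L[ℝ] E k).contDiff)
    exact (jnL : E k × E n →L[ℝ] E (k + n)).contDiff.comp
      (h1.prodMk (ct : E (k + n) →L[ℝ] E n).contDiff)
  exact bij_of_local hs (om_inj hP p) (isCompact_closedBall 0 R)
    fun z hz => om_off hoff p z (not_ball hz)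

/-- from block positive symplectomorphisms to transition maps -/
theorem exists_fwd (hφ : ContDiff ℝ ∞ (fun q : P × E (k + n) => (φ q.1).map q.2))
    (hoff : ∀ p z, R < ‖z‖ → (φ p).map z = z) (hP : ∀ p, Pos (φ p)) :
    ∃ (b : P × E k → SympCt n) (B : P → E (k + n) → E k), QFam b R ∧ Prim b B R ∧ Good B ∧
      (∀ p z, (φ p).map (Xi B p z) = Th b B p z) ∧ IsTrans φ b := by
  have hΩ := om_smooth hφ
  obtain ⟨Ξ, hΞ, h1, h2⟩ := inv_fam hΩ (om_inj hP) (om_bij hoff hP)
  have e1 : ∀ p z, ct (Ξ p z) = ct z := by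
    intro p z
    have h3 := congrArg ct (h2 p z)
    rwa [Om, ct_jn] at h3
  have e23 : ∀ p z, px (cq ((φ p).map (Ξ p z))) + py (cq (Ξ p z)) = cq z := by
    intro p z
    have h3 := congrArg cq (h2 p z)
    rwa [Om, cq_jn] at h3
  have e2 : ∀ p z, py (cq (Ξ p z)) = py (cq z) := by
    intro p z
    have h3 := congrArg py (e23 p z)
    rwa [map_add, py_px, zero_add, py_py] at h3
  have e3 : ∀ p z, px (cq ((φ p).map (Ξ p z))) = px (cq z) := by
    intro p z
    have h3 := congrArg px (e23 p z)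
    rwa [map_add, px_py, add_zero, px_px] at h3
  let Θ : P → E (k + n) → E (k + n) := fun p z => (φ p).map (Ξ p z)
  have hΘ : ContDiff ℝ ∞ (fun q : P × E (k + n) => Θ q.1 q.2) :=
    hφ.comp (contDiff_fst.prodMk hΞ)
  have hΞoff : ∀ p z, R < ‖z‖ → Ξ p z = z := by
    intro p z hz
    have h4 := h1 p z
    rwa [om_off hoff p z hz] at h4
  have hΘoff : ∀ p z, R < ‖z‖ → Θ p z = z := by
    intro p z hz
    show (φ p).map (Ξ p z) = z
    rw [hΞoff p z hz, hoff p z hz]
  have hΞd := fun p z => (slice hΞ p).differentiable (by simp) z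
  have hΘd := fun p z => (slice hΘ p).differentiable (by simp) z
  have hforms : ∀ p z u v, omega (fderiv ℝ (Θ p) z u) (fderiv ℝ (Θ p) z v) =
      omega (fderiv ℝ (Ξ p) z u) (fderiv ℝ (Ξ p) z v) := by
    intro p z u v
    have h3 : fderiv ℝ (Θ p) z = (fderiv ℝ (φ p).map (Ξ p z)).comp (fderiv ℝ (Ξ p) z) :=
      fderiv_comp z ((map_smooth (φ p)).differentiable (by simp) _) (hΞd p z)
    rw [h3]
    exact (φ p).2.1.form _ _ _
  -- derivatives of the components
  have d1 : ∀ p z ζ, ct (fderiv ℝ (Ξ p) z ζ) = ct ζ := by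
    intro p z ζ
    have h3 : fderiv ℝ (fun z => (ct (Ξ p z) : E n)) z = (ct : E (k + n) →L[ℝ] E n).comp
      (fderiv ℝ (Ξ p) z) := ((ct : E (k + n) →L[ℝ] E n).hasFDerivAt.comp z
        (hΞd p z).hasFDerivAt).fderiv
    have h4 : (fun z => (ct (Ξ p z) : E n)) = ct := funext (e1 p)
    rw [h4, ContinuousLinearMap.fderiv] at h3
    exact (DFunLike.congr_fun h3 ζ).symm
  have d2 : ∀ p z ζ, py (cq (fderiv ℝ (Ξ p) z ζ)) = py (cq ζ) := by
    intro p z ζ
    have h3 : fderiv ℝ (fun z => py (cq (Ξ p z) : E k)) z =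
      (py.comp (cq : E (k + n) →L[ℝ] E k)).comp (fderiv ℝ (Ξ p) z) :=
        ((py.comp (cq : E (k + n) →L[ℝ] E k)).hasFDerivAt.comp z (hΞd p z).hasFDerivAt).fderiv
    have h4 : (fun z => py (cq (Ξ p z) : E k)) = (py.comp (cq : E (k + n) →L[ℝ] E k)) :=
      funext (e2 p)
    rw [h4, ContinuousLinearMap.fderiv] at h3
    exact (DFunLike.congr_fun h3 ζ).symm
  have d3 : ∀ p z ζ, px (cq (fderiv ℝ (Θ p) z ζ)) = px (cq ζ) := by
    intro p z ζ
    have h3 : fderiv ℝ (fun z => px (cq (Θ p z) : E k)) z =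
      (px.comp (cq : E (k + n) →L[ℝ] E k)).comp (fderiv ℝ (Θ p) z) :=
        ((px.comp (cq : E (k + n) →L[ℝ] E k)).hasFDerivAt.comp z (hΘd p z).hasFDerivAt).fderiv
    have h4 : (fun z => px (cq (Θ p z) : E k)) = (px.comp (cq : E (k + n) →L[ℝ] E k)) :=
      funext (e3 p)
    rw [h4, ContinuousLinearMap.fderiv] at h3
    exact (DFunLike.congr_fun h3 ζ).symm
  -- the transition map
  let F : P → E k → E n → E n := fun p q w => ct (Θ p (jn q w))
  have hFs : ∀ p q, ContDiff ℝ ∞ (F p q) := by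
    intro p q
    have h3 : ContDiff ℝ ∞ (fun w : E n => (jn q w : E (k + n))) :=
      (jnL : E k × E n →L[ℝ] E (k + n)).contDiff.comp (contDiff_const.prodMk contDiff_id)
    exact (ct : E (k + n) →L[ℝ] E n).contDiff.comp ((slice hΘ p).comp h3)
  have hFd : ∀ p q w v, fderiv ℝ (F p q) w v = ct (fderiv ℝ (Θ p) (jn q w) (it v)) := by
    intro p q w v
    have h3 := (ct : E (k + n) →L[ℝ] E n).hasFDerivAt.comp w
      ((hΘd p (jn q w)).hasFDerivAt.comp w (hasFDerivAt_jn q w))
    have h4 : fderiv ℝ (F p q) w = _ := h3.fderiv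
    rw [h4]
    rfl
  have hFsymp : ∀ p q w u v, omega (fderiv ℝ (F p q) w u) (fderiv ℝ (F p q) w v) =
      omega u v := by
    intro p q w u v
    have h3 := hforms p (jn q w) (it u) (it v)
    rw [omega_jn, omega_jn (fderiv ℝ (Ξ p) (jn q w) (it u))] at h3
    have h4 : ∀ v : E n, cq (fderiv ℝ (Θ p) (jn q w) (it v)) =
        py (cq (fderiv ℝ (Θ p) (jn q w) (it v))) := by
      intro v
      have h5 := d3 p (jn q w) (it v)
      rw [cq_it, map_zero] at h5
      conv_lhs => rw [← px_add_py (cq (fderiv ℝ (Θ p) (jn q w) (it v))), h5, zero_add]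
    have h4' : ∀ v : E n, cq (fderiv ℝ (Ξ p) (jn q w) (it v)) =
        px (cq (fderiv ℝ (Ξ p) (jn q w) (it v))) := by
      intro v
      have h5 := d2 p (jn q w) (it v)
      rw [cq_it, map_zero] at h5
      conv_lhs => rw [← px_add_py (cq (fderiv ℝ (Ξ p) (jn q w) (it v))), h5, add_zero]
    rw [h4 u, h4 v, h4' u, h4' v, omega_py_py, omega_px_px, zero_add, zero_add, d1, d1, ct_it,
      ct_it] at h3
    rw [hFd, hFd]
    exact h3
  have hFoff : ∀ p q w, R < ‖w‖ → F p q w = w := by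
    intro p q w hw
    show ct (Θ p (jn q w)) = w
    rw [hΘoff p _ (lt_norm.2 (Or.inr (by rwa [ct_jn]))), ct_jn]
  have hFinj : ∀ p q, Injective (F p q) := fun p q =>
    (bij_of_local (hFs p q) (inj_of_symp (hFsymp p q)) (isCompact_closedBall 0 R)
      fun w hw => hFoff p q w (not_ball hw)).1
  choose b hb hbs using fun q : P × E k => exists_symp (F q.1 q.2) (hFs q.1 q.2)
    (hFsymp q.1 q.2) (hFinj q.1 q.2) (closedBall 0 R) (isCompact_closedBall _ _)
    fun w hw => hFoff q.1 q.2 w (not_ball hw)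
  have hbe : ∀ p z, be b p z = ct (Θ p z) := by
    intro p z
    rw [be, hb]
    show ct (Θ p (jn (cq z) (ct z))) = _
    rw [jn_eta]
  let B : P → E (k + n) → E k := fun p z => px (cq z - cq (Ξ p z)) + py (cq (Θ p z) - cq z)
  have hXi : ∀ p z, Xi B p z = Ξ p z := by
    intro p z
    refine ext_jn ?_ ?_
    · rw [Xi, cq_jn]
      show cq z - px (px (cq z - cq (Ξ p z)) + py (cq (Θ p z) - cq z)) = _
      rw [map_add, px_px, px_py, add_zero, map_sub]
      conv_rhs => rw [← px_add_py (cq (Ξ p z)), e2]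
      conv_lhs => lhs; rw [← px_add_py (cq z)]
      abel
    · rw [Xi, ct_jn, e1]
  have hTh : ∀ p z, Th b B p z = Θ p z := by
    intro p z
    refine ext_jn ?_ ?_
    · rw [Th, cq_jn]
      show cq z + py (px (cq z - cq (Ξ p z)) + py (cq (Θ p z) - cq z)) = _
      rw [map_add, py_px, py_py, zero_add, map_sub]
      have h3 : px (cq (Θ p z)) = px (cq z) := e3 p z
      conv_rhs => rw [← px_add_py (cq (Θ p z)), h3]
      conv_lhs => lhs; rw [← px_add_py (cq z)]
      abel
    · rw [Th, ct_jn, hbe]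
  have hQ : QFam b R := by
    refine ⟨?_, fun p z hz => by rw [hbe, hΘoff p z hz]⟩
    have : (fun q : P × E (k + n) => be b q.1 q.2) = fun q => ct (Θ q.1 q.2) :=
      funext fun q => hbe q.1 q.2
    rw [this]
    exact (ct : E (k + n) →L[ℝ] E n).contDiff.comp hΘ
  have hBs : ContDiff ℝ ∞ (fun q : P × E (k + n) => B q.1 q.2) := by
    have c1 : ContDiff ℝ ∞ (fun q : P × E (k + n) => (cq q.2 : E k)) :=
      (cq : E (k + n) →L[ℝ] E k).contDiff.comp contDiff_snd
    have c2 : ContDiff ℝ ∞ (fun q : P × E (k + n) => (cq (Ξ q.1 q.2) : E k)) :=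
      (cq : E (k + n) →L[ℝ] E k).contDiff.comp hΞ
    have c3 : ContDiff ℝ ∞ (fun q : P × E (k + n) => (cq (Θ q.1 q.2) : E k)) :=
      (cq : E (k + n) →L[ℝ] E k).contDiff.comp hΘ
    exact (px.contDiff.comp (c1.sub c2)).add (py.contDiff.comp (c3.sub c1))
  have hthf : ∀ p, Th b B p = Θ p := fun p => funext (hTh p)
  have hxif : ∀ p, Xi B p = Ξ p := fun p => funext (hXi p)
  refine ⟨b, B, hQ, ⟨hBs, fun p z hz => ?_, fun p z δ v => ?_⟩, fun p z v t ht hv hJ => ?_,
    fun p z => ?_, fun p z' => ?_⟩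
  · show px (cq z - cq (Ξ p z)) + py (cq (Θ p z) - cq z) = 0
    rw [hΞoff p z hz, hΘoff p z hz, sub_self, map_zero, map_zero, add_zero]
  · have h3 := form_diff hQ hBs p z (iq δ) (it v)
    rw [hthf, hxif, hforms, sub_self, cq_it, EX.omega_zero_right, cq_iq, ct_iq,
      EX.omega_zero_left] at h3
    linarith
  · have h3 : fderiv ℝ (Ξ p) z (iq v) = iq (-(t • v)) := by
      rw [← hxif, fderiv_xi hBs, cq_iq, ct_iq, hJ]
      rfl
    have h4 : fderiv ℝ (Om φ p) (Ξ p z) (fderiv ℝ (Ξ p) z (iq v)) = iq v := by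
      have h7 : (Om φ p) ∘ (Ξ p) = id := funext (h2 p)
      have h8 : (fderiv ℝ (Om φ p) (Ξ p z)).comp (fderiv ℝ (Ξ p) z) =
          ContinuousLinearMap.id ℝ (E (k + n)) := by
        rw [← fderiv_id (𝕜 := ℝ) (x := z), ← h7]
        exact (fderiv_comp z ((slice hΩ p).differentiable (by simp) _) (hΞd p z)).symm
      exact DFunLike.congr_fun h8 _
    rw [h3, fderiv_Om, cq_iq, map_neg, map_neg, map_neg, map_neg, map_smul, map_smul, map_smul,
      map_smul, map_neg, map_smul, hv, smul_zero, neg_zero, add_zero] at h4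
    have h5 := congrArg cq h4
    rw [cq_jn, cq_iq] at h5
    rcases ht.eq_or_lt with h0 | h0
    · rw [← h0, zero_smul, neg_zero] at h5
      exact h5.symm
    · refine hP p (Ξ p z) v (1 / t) (by positivity) hv ?_
      rw [← h5, smul_neg, neg_neg, smul_smul, one_div, inv_mul_cancel₀ h0.ne', one_smul]
      rw [h5]
  · rw [hxif, hthf]
  · -- the transition map
    obtain ⟨z, rfl⟩ : ∃ z, Ξ p z = z' := ⟨Om φ p z', h1 p z'⟩
    rw [e1, e3, e2, px_add_py, hb]
    show ct (Θ p z) = ct (Θ p (jn (cq z) (ct z)))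
    rw [jn_eta]

omit [NormedAddCommGroup P] [NormedSpace ℝ P] [FiniteDimensional ℝ P] in
/-- transition maps are unique -/
theorem IsTrans.unique (hoff : ∀ p z, R < ‖z‖ → (φ p).map z = z) (hP : ∀ p, Pos (φ p))
    {b b' : P × E k → SympCt n} (h : IsTrans φ b) (h' : IsTrans φ b') : b = b' := by
  ext1 q
  refine ext_map fun w => ?_
  obtain ⟨z, hz⟩ := (om_bij hoff hP q.1).2 (jn q.2 w)
  have h1 := congrArg cq hz
  have h2 := congrArg ct hz
  rw [Om, cq_jn, cq_jn] at h1
  rw [Om, ct_jn, ct_jn] at h2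
  have h3 := h q.1 z
  have h4 := h' q.1 z
  rw [h1, h2] at h3 h4
  rw [← h3, ← h4]

/-- block positive families are determined by their transition maps -/
theorem eq_of_trans (hn : 0 < n)
    (hφ : ContDiff ℝ ∞ (fun q : P × E (k + n) => (φ q.1).map q.2))
    (hoff : ∀ p z, R < ‖z‖ → (φ p).map z = z) (hP : ∀ p, Pos (φ p))
    {φ' : P → SympCt (k + n)} {R' : ℝ}
    (hφ' : ContDiff ℝ ∞ (fun q : P × E (k + n) => (φ' q.1).map q.2))
    (hoff' : ∀ p z, R' < ‖z‖ → (φ' p).map z = z) (hP' : ∀ p, Pos (φ' p))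
    {b : P × E k → SympCt n} (h : IsTrans φ b) (h' : IsTrans φ' b) : φ = φ' := by
  obtain ⟨b₁, B₁, hQ₁, hB₁, hG₁, hT₁, ht₁⟩ := exists_fwd hφ hoff hP
  obtain ⟨b₂, B₂, hQ₂, hB₂, hG₂, hT₂, ht₂⟩ := exists_fwd hφ' hoff' hP'
  have e1 : b₁ = b := ht₁.unique hoff hP h
  have e2 : b₂ = b := ht₂.unique hoff' hP' h'
  subst e1
  subst e2
  have e3 := hB₁.unique hn hB₂
  subst e3
  ext1 p
  refine ext_map fun z' => ?_
  obtain ⟨z, rfl⟩ := (xi_bij hB₁ hG₁ p).2 z'
  rw [hT₁, hT₂]

end fwd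

end Pool.Agent.H822.BK
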