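import Mathlib
import Pool.Agent.H822.BK.Dict

/-!
# Existence of primitives
-/

set_option autoImplicit false

open scoped ContDiff
open Set Filter Topology Function Metric
open Q170.SC Pool.Agent.H822.Ham Pool.Agent.H822.Pairs Pool.Agent.H822.PairsMain
open Pool.Agent.Q191.SY Pool.Agent.H822.EX

namespace Pool.Agent.H822.BK

variable {k n : ℕ} {P : Type} [NormedAddCommGroup P] [NormedSpace ℝ P]

/-- a function with vanishing derivative far out is constant far out -/
theorem far_const (hn : 0 < n) {f : E n → ℝ} (hf : Differentiable ℝ f) {R : ℝ}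
    (h : ∀ w, R < ‖w‖ → fderiv ℝ f w = 0) {w w' : E n} (hw : R < ‖w‖) (hw' : R < ‖w'‖) :
    f w = f w' := by
  have hseg : ∀ a c : E n, (∀ z ∈ segment ℝ a c, R < ‖z‖) → f c = f a := by
    intro a c hac
    have h1 := (convex_segment (𝕜 := ℝ) a c).norm_image_sub_le_of_norm_fderiv_le (𝕜 := ℝ) (f := f)
      (C := 0) (fun x _ => hf x) (fun x hx => by rw [h x (hac x hx), norm_zero])
      (left_mem_segment ℝ a c) (right_mem_segment ℝ a c)
    rwa [zero_mul, norm_le_zero_iff, sub_eq_zero] at h1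
  let c : E n := (fun _ => |R| + 1, fun _ => |R| + 1)
  have hnc : ∀ v : Fin n → ℝ, R < ‖((fun _ => |R| + 1 : Fin n → ℝ), v)‖ := by
    intro v
    refine lt_of_lt_of_le ?_ (norm_fst_le _)
    refine lt_of_lt_of_le ?_ (norm_le_pi_norm _ (⟨0, hn⟩ : Fin n))
    rw [Real.norm_of_nonneg (by positivity)]
    linarith [le_abs_self R]
  have hnc' : ∀ v : Fin n → ℝ, R < ‖(v, (fun _ => |R| + 1 : Fin n → ℝ))‖ := by
    intro v
    refine lt_of_lt_of_le ?_ (norm_snd_le _)
    refine lt_of_lt_of_le ?_ (norm_le_pi_norm _ (⟨0, hn⟩ : Fin n))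
    rw [Real.norm_of_nonneg (by positivity)]
    linarith [le_abs_self R]
  have hfst : ∀ (a v v' : Fin n → ℝ) (z : E n), z ∈ segment ℝ (a, v) (a, v') → z.1 = a := by
    rintro a v v' z ⟨r, s, -, -, hrs, rfl⟩
    show r • a + s • a = a
    rw [← add_smul, hrs, one_smul]
  have hsnd : ∀ (a a' v : Fin n → ℝ) (z : E n), z ∈ segment ℝ (a, v) (a', v) → z.2 = v := by
    rintro a a' v z ⟨r, s, -, -, hrs, rfl⟩
    show r • v + s • v = v
    rw [← add_smul, hrs, one_smul]
  have key : ∀ w : E n, R < ‖w‖ → f w = f c := by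
    intro w hw
    rw [Prod.norm_def, lt_max_iff] at hw
    rcases hw with hw | hw
    · have e1 : f (w.1, c.2) = f (w.1, w.2) := hseg _ _ fun z hz => by
        refine lt_of_lt_of_le ?_ (norm_fst_le _)
        rwa [hfst _ _ _ z hz]
      have e2 : f (c.1, c.2) = f (w.1, c.2) := hseg _ _ fun z hz => by
        have h8 := hsnd _ _ _ z hz
        have h10 : z = (z.1, c.2) := Prod.ext rfl h8
        rw [h10]
        exact hnc' z.1
      exact (e2.trans e1).symm
    · have e1 : f (c.1, w.2) = f (w.1, w.2) := hseg _ _ fun z hz => by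
        refine lt_of_lt_of_le ?_ (norm_snd_le _)
        rwa [hsnd _ _ _ z hz]
      have e2 : f (c.1, c.2) = f (c.1, w.2) := hseg _ _ fun z hz => by
        have h8 := hfst _ _ _ z hz
        have h10 : z = (c.1, z.2) := Prod.ext h8 rfl
        rw [h10]
        exact hnc z.2
      exact (e2.trans e1).symm
  rw [key w hw, key w' hw']

variable {b : P × E k → SympCt n} {R : ℝ}

theorem QFam.deriv_off (h : QFam b R) (p : P) {z : E (k + n)} (hz : R < ‖z‖) (ζ : E (k + n)) :
    fderiv ℝ (be b p) z ζ = ct ζ := by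
  have h6 : ∀ᶠ y : E (k + n) in 𝓝 z, R < ‖y‖ :=
    continuousAt_const.eventually_lt continuous_norm.continuousAt hz
  have h7 : be b p =ᶠ[𝓝 z] ct := by
    filter_upwards [h6] with y hy using h.off p y hy
  rw [h7.fderiv_eq, ContinuousLinearMap.fderiv]

theorem exists_prim [FiniteDimensional ℝ P] (hn : 0 < n) (h : QFam b R) :
    ∃ B : P → E (k + n) → E k, Prim b B R := by
  let Φ : ((P × E k) × E k) × ℝ → E n → E n := fun q w =>
    (b (q.1.1.1, q.1.1.2 + q.2 • q.1.2)).map w
  have hΦe : ∀ q w, Φ q w = be b q.1.1.1 (jn (q.1.1.2 + q.2 • q.1.2) w) := by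
    intro q w
    rw [be, cq_jn, ct_jn]
  have hΦ : SFam Φ := by
    refine ⟨?_, fun q z u v => (b _).2.1.form z u v, fun q => (b _).perm.bijective⟩
    have h1 : (fun q : (((P × E k) × E k) × ℝ) × E n => Φ q.1 q.2) = fun q =>
        be b q.1.1.1.1 (jn (q.1.1.1.2 + q.1.2 • q.1.1.2) q.2) := funext fun q => hΦe q.1 q.2
    rw [h1]
    have h2 : ContDiff ℝ ∞ (fun q : (((P × E k) × E k) × ℝ) × E n =>
        (q.1.1.1.2 + q.1.2 • q.1.1.2 : E k)) := by fun_prop
    have h3 : ContDiff ℝ ∞ (fun q : (((P × E k) × E k) × ℝ) × E n =>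
        (jn (q.1.1.1.2 + q.1.2 • q.1.1.2) q.2 : E (k + n))) :=
      (jnL : E k × E n →L[ℝ] E (k + n)).contDiff.comp (h2.prodMk contDiff_snd)
    exact h.smooth.comp ((by fun_prop : ContDiff ℝ ∞
      (fun q : (((P × E k) × E k) × ℝ) × E n => q.1.1.1.1)).prodMk h3)
  obtain ⟨H, hH, hd⟩ := exists_ham Φ hΦ
  -- the generator
  let G : P → E k → E k → E n → ℝ := fun p q δ w => H (((p, q), δ), 0) w
  have hGs : ∀ p q δ, ContDiff ℝ ∞ (G p q δ) := fun p q δ =>
    hH.comp (contDiff_const.prodMk contDiff_id)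
  have hG : ∀ p z δ, ham (G p (cq z) δ) (be b p z) = fderiv ℝ (be b p) z (iq δ) := by
    intro p z δ
    have h1 := hd ((p, cq z), δ) 0 (ct z)
    have h2 : Φ (((p, cq z), δ), 0) (ct z) = be b p z := by
      rw [hΦe]
      show be b p (jn (cq z + (0 : ℝ) • δ) (ct z)) = _
      rw [zero_smul, add_zero, jn_eta]
    rw [h2] at h1
    have h3 : HasDerivAt (fun s : ℝ => z + s • (iq δ : E (k + n))) ((1 : ℝ) • iq δ) 0 :=
      ((hasDerivAt_id (0 : ℝ)).smul_const _).const_add z
    rw [one_smul] at h3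
    have h4 : HasFDerivAt (be b p) (fderiv ℝ (be b p) z) (z + (0 : ℝ) • iq δ) := by
      rw [zero_smul, add_zero]
      exact ((slice h.smooth p).differentiable (by simp) z).hasFDerivAt
    have h5 := h4.comp_hasDerivAt 0 h3
    have h6 : (be b p ∘ fun s : ℝ => z + s • (iq δ : E (k + n))) =
        fun s => Φ (((p, cq z), δ), s) (ct z) := by
      ext1 s
      rw [hΦe]
      show be b p (z + s • iq δ) = be b p (jn (cq z + s • δ) (ct z))
      congr 1
      exact ext_jn (by simp) (by simp)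
    rw [h6] at h5
    exact h1.unique h5
  -- its pull back
  let f : P → E k → E k → E n → ℝ := fun p q δ u => G p q δ ((b (p, q)).map u)
  have hfs : ∀ p q δ, ContDiff ℝ ∞ (f p q δ) := fun p q δ => (hGs p q δ).comp (map_smooth _)
  have hf : ∀ p z δ v, fderiv ℝ (f p (cq z) δ) (ct z) v =
      omega (fderiv ℝ (be b p) z (iq δ)) (fderiv ℝ (be b p) z (it v)) := by
    intro p z δ v
    have h1 : fderiv ℝ (f p (cq z) δ) (ct z) = _ :=
      fderiv_comp (ct z) ((hGs p (cq z) δ).differentiable (by simp) _)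
        ((map_smooth (b (p, cq z))).differentiable (by simp) _)
    rw [h1, ← hG, h.vert]
    show fderiv ℝ (G p (cq z) δ) (be b p z) _ = _
    rw [← omega_ham]
    rfl
  obtain ⟨w₁, hw₁⟩ := exists_far hn R
  let a : E k → P → E (k + n) → ℝ := fun δ p z => f p (cq z) δ (ct z) - f p (cq z) δ w₁
  have has : ∀ δ, ContDiff ℝ ∞ (fun q : P × E (k + n) => a δ q.1 q.2) := by
    intro δ
    have h1 : ∀ g : P × E (k + n) → E n, ContDiff ℝ ∞ g →
        ContDiff ℝ ∞ (fun q : P × E (k + n) => f q.1 (cq q.2) δ (g q)) := by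
      intro g hg
      have c0 : ContDiff ℝ ∞ (fun q : P × E (k + n) => (cq q.2 : E k)) :=
        (cq : E (k + n) →L[ℝ] E k).contDiff.comp contDiff_snd
      have c1 : ContDiff ℝ ∞ (fun q : P × E (k + n) => (b (q.1, cq q.2)).map (g q)) := by
        have c2 : (fun q : P × E (k + n) => (b (q.1, cq q.2)).map (g q)) =
            fun q => be b q.1 (jn (cq q.2) (g q)) := by
          ext1 q
          rw [be, cq_jn, ct_jn]
        rw [c2]
        exact h.smooth.comp (contDiff_fst.prodMk
          ((jnL : E k × E n →L[ℝ] E (k + n)).contDiff.comp (c0.prodMk hg)))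
      exact hH.comp ((((contDiff_fst.prodMk c0).prodMk contDiff_const).prodMk
        contDiff_const).prodMk c1)
    exact (h1 _ ((ct : E (k + n) →L[ℝ] E n).contDiff.comp contDiff_snd)).sub
      (h1 _ contDiff_const)
  have had : ∀ δ p z v, fderiv ℝ (a δ p) z (it v) =
      omega (fderiv ℝ (be b p) z (iq δ)) (fderiv ℝ (be b p) z (it v)) := by
    intro δ p z v
    have h1 : HasFDerivAt (a δ p) (fderiv ℝ (a δ p) z) (jn (cq z) (ct z)) := by
      rw [jn_eta]
      exact ((slice (has δ) p).differentiable (by simp) z).hasFDerivAt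
    have h2 := (h1.comp (ct z) (hasFDerivAt_jn (cq z) (ct z))).fderiv
    have h3 : (a δ p ∘ fun w : E n => (jn (cq z) w : E (k + n))) =
        fun u => f p (cq z) δ u - f p (cq z) δ w₁ := by
      ext1 u
      show f p (cq (jn (cq z) u : E (k + n))) δ (ct (jn (cq z) u : E (k + n))) -
        f p (cq (jn (cq z) u : E (k + n))) δ w₁ = _
      rw [cq_jn, ct_jn]
    rw [h3, fderiv_sub_const] at h2
    have h4 := DFunLike.congr_fun h2 v
    have h5 : fderiv ℝ (f p (cq z) δ) (ct z) v = fderiv ℝ (a δ p) z (it v) := h4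
    rw [← h5]
    exact hf p z δ v
  have hoff : ∀ δ p z, R < ‖z‖ → a δ p z = 0 := by
    intro δ p z hz
    have hz' : ∀ u : E n, R < ‖(jn (cq z) u : E (k + n))‖ → fderiv ℝ (f p (cq z) δ) u = 0 := by
      intro u hu
      refine ContinuousLinearMap.ext fun v => ?_
      have h1 := hf p (jn (cq z) u) δ v
      rw [cq_jn, ct_jn, h.deriv_off p hu, ct_iq, EX.omega_zero_left] at h1
      exact h1
    have hd := (hfs p (cq z) δ).differentiable (by simp)
    rcases lt_norm.1 hz with h1 | h1
    · exact sub_eq_zero.2 (is_const_of_fderiv_eq_zero (𝕜 := ℝ) hd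
        (fun u => hz' u (lt_norm.2 (Or.inl (by rwa [cq_jn])))) _ _)
    · exact sub_eq_zero.2 (far_const hn hd
        (fun u hu => hz' u (lt_norm.2 (Or.inr (by rwa [ct_jn])))) h1 hw₁)
  let B : P → E (k + n) → E k := fun p z => (fun i => a (ey i) p z, fun i => - a (ex i) p z)
  have hBs : ContDiff ℝ ∞ (fun q : P × E (k + n) => B q.1 q.2) :=
    (contDiff_pi.2 fun i => has (ey i)).prodMk (contDiff_pi.2 fun i => (has (ex i)).neg)
  refine ⟨B, hBs, fun p z hz => ?_, fun p z δ v => ?_⟩
  · show ((fun i => a (ey i) p z, fun i => - a (ex i) p z) : E k) = 0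
    simp only [hoff _ p z hz, neg_zero]
    rfl
  · have hBd := ((slice hBs p).differentiable (by simp) z).hasFDerivAt
    have e1 : ∀ δ : E k, fderiv ℝ (fun z => omega (B p z) δ) z (it v) =
        omega (fderiv ℝ (B p) z (it v)) δ := by
      intro δ
      have h1 := ((omL k).flip δ).hasFDerivAt.comp z hBd
      have h2 : fderiv ℝ (fun z => omega (B p z) δ) z = _ := h1.fderiv
      rw [h2]
      rfl
    have e2 : ∀ i, omega (fderiv ℝ (B p) z (it v)) (ey i) =
        omega (fderiv ℝ (be b p) z (iq (ey i))) (fderiv ℝ (be b p) z (it v)) := by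
      intro i
      rw [← e1, ← had]
      congr 1
      have : (fun z => omega (B p z) (ey i)) = a (ey i) p := by
        ext z
        rw [omega_ey]
      rw [this]
    have e3 : ∀ i, omega (fderiv ℝ (B p) z (it v)) (ex i) =
        omega (fderiv ℝ (be b p) z (iq (ex i))) (fderiv ℝ (be b p) z (it v)) := by
      intro i
      rw [← e1, ← had]
      congr 1
      have : (fun z => omega (B p z) (ex i)) = a (ex i) p := by
        ext z
        rw [omega_ex]
        show - - a (ex i) p z = _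
        rw [neg_neg]
      rw [this]
    have e4 := apply_dec (omL k (fderiv ℝ (B p) z (it v))) δ
    have e5 := apply_dec (((omL n).flip (fderiv ℝ (be b p) z (it v))).comp
      ((fderiv ℝ (be b p) z).comp (iq : E k →L[ℝ] E (k + n)))) δ
    have e6 : omega (fderiv ℝ (B p) z (it v)) δ = _ := e4
    have e7 : omega (fderiv ℝ (be b p) z (iq δ)) (fderiv ℝ (be b p) z (it v)) = _ := e5
    rw [e6, e7]
    refine Finset.sum_congr rfl fun i _ => ?_
    show _ * omega (fderiv ℝ (B p) z (it v)) (ex i) +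
      _ * omega (fderiv ℝ (B p) z (it v)) (ey i) =
      _ * omega (fderiv ℝ (be b p) z (iq (ex i))) (fderiv ℝ (be b p) z (it v)) +
      _ * omega (fderiv ℝ (be b p) z (iq (ey i))) (fderiv ℝ (be b p) z (it v))
    rw [e2, e3]

end Pool.Agent.H822.BK
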