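import Mathlib
import Pool.Agent.H822.BK.PrimEx

/-!
# Homotopies of block positive families
-/

set_option autoImplicit false

open scoped ContDiff
open Set Filter Topology Function Metric
open Q170.SC Pool.Agent.H822.Ham Pool.Agent.H822.Pairs Pool.Agent.H822.PairsMain
open Pool.Agent.Q191.SY Pool.Agent.H822.EX

namespace Pool.Agent.H822.BK

open Td (et et_smooth et_zero et_one)

variable {k n : ℕ} {P : Type} [NormedAddCommGroup P] [NormedSpace ℝ P]
  {P' : Type} [NormedAddCommGroup P'] [NormedSpace ℝ P']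

/-- a compactly supported smooth family of block positive maps -/
structure BMap (φ : P → SympCt (k + n)) : Prop where
  fam : Fam φ
  pos : ∀ p, Pos (φ p)

/-- homotopies in the set of block positive maps -/
def BHtp (φ φ' : P → SympCt (k + n)) : Prop :=
  ∃ (Φ : ℝ → P → SympCt (k + n)) (K : Set (P × E (k + n))), IsCompact K ∧
    ContDiff ℝ ∞ (fun q : ℝ × P × E (k + n) => (Φ q.1 q.2.1).map q.2.2) ∧
    (∀ s q, q ∉ K → (Φ s q.1).map q.2 = q.2) ∧ (∀ s p, Pos (Φ s p)) ∧ Φ 0 = φ ∧ Φ 1 = φ'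

/-! ### Scaling -/

/-- scaling of the `y` coordinates -/
def sc (ε : ℝ) (q : E k) : E k := px q + ε • py q

/-- scaling of the `x` coordinates -/
def sx (ε : ℝ) (q : E k) : E k := ε • px q + py q

/-- scaling of the first `y` coordinates -/
noncomputable def bs (ε : ℝ) (z : E (k + n)) : E (k + n) := jn (sc ε (cq z)) (ct z)

theorem sc_one (q : E k) : sc 1 q = q := by rw [sc, one_smul, px_add_py]
theorem bs_one (z : E (k + n)) : bs 1 z = z := by rw [bs, sc_one, jn_eta]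

theorem omega_sc (ε : ℝ) (u v : E k) : omega (sx ε u) v = omega u (sc ε v) := by
  have e1 : omega u (sc ε v) = omega (px u + py u) (px v + ε • py v) := by
    rw [px_add_py]; rfl
  have e2 : omega (sx ε u) v = omega (ε • px u + py u) (px v + py v) := by
    rw [px_add_py]; rfl
  rw [e1, e2]
  simp only [omega_add_left, omega_add_right, omega_smul_left, omega_smul_right, omega_px_px,
    omega_py_py]
  ring

theorem sx_eq (ε : ℝ) : (sx ε : E k → E k) = (ε • px + py : E k →L[ℝ] E k) := rfl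

/-- the scaling as a linear map -/
noncomputable def bsL (ε : ℝ) : E (k + n) →L[ℝ] E (k + n) :=
  jnL.comp (((px + ε • py : E k →L[ℝ] E k).comp (cq : E (k + n) →L[ℝ] E k)).prod
    (ct : E (k + n) →L[ℝ] E n))

theorem bsL_apply (ε : ℝ) (z : E (k + n)) : bsL ε z = bs ε z := rfl

theorem bs_it (ε : ℝ) (v : E n) : bs ε (it v : E (k + n)) = it v := by
  rw [bs, cq_it, ct_it, sc, map_zero, map_zero, smul_zero, add_zero]
  rfl

theorem bs_iq (ε : ℝ) (δ : E k) : bs ε (iq δ : E (k + n)) = iq (sc ε δ) := by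
  rw [bs, cq_iq, ct_iq]
  rfl

theorem norm_px_le (q : E k) : ‖px q‖ ≤ ‖q‖ := by
  rw [px_apply, Prod.norm_def, norm_zero, max_eq_left (norm_nonneg _)]
  exact norm_fst_le q

theorem norm_le_sc {ε ε₀ : ℝ} (h0 : 0 < ε₀) (h1 : ε₀ ≤ ε) (h2 : ε₀ ≤ 1) (q : E k) :
    ε₀ * ‖q‖ ≤ ‖sc ε q‖ := by
  have e1 : sc ε q = (q.1, ε • q.2) := by
    rw [sc, px_apply, py_apply]
    apply Prod.ext <;> simp
  have hε : 0 < ε := h0.trans_le h1
  rw [e1, Prod.norm_def, Prod.norm_def, norm_smul, Real.norm_of_nonneg hε.le,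
    mul_max_of_nonneg _ _ h0.le]
  refine max_le_max ?_ (mul_le_mul_of_nonneg_right h1 (norm_nonneg _))
  calc ε₀ * ‖q.1‖ ≤ 1 * ‖q.1‖ := mul_le_mul_of_nonneg_right h2 (norm_nonneg _)
    _ = ‖q.1‖ := one_mul _

theorem norm_le_bs {ε ε₀ : ℝ} (h0 : 0 < ε₀) (h1 : ε₀ ≤ ε) (h2 : ε₀ ≤ 1) (z : E (k + n)) :
    ε₀ * ‖z‖ ≤ ‖bs ε z‖ := by
  have hε : 0 < ε := h0.trans_le h1
  rw [mul_comm, ← le_div_iff₀ h0]
  refine norm_le_of ?_ ?_
  · rw [le_div_iff₀ h0, mul_comm]
    refine (norm_le_sc h0 h1 h2 (cq z)).trans ?_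
    have := norm_cq_le (bs ε z)
    rwa [bs, cq_jn] at this
  · rw [le_div_iff₀ h0, mul_comm]
    have h3 := norm_ct_le (bs ε z)
    rw [bs, ct_jn] at h3
    calc ε₀ * ‖ct z‖ ≤ 1 * ‖ct z‖ := mul_le_mul_of_nonneg_right h2 (norm_nonneg _)
      _ = ‖ct z‖ := one_mul _
      _ ≤ _ := h3

section scale

variable {b : P × E k → SympCt n} {B : P → E (k + n) → E k} {R : ℝ} {σ : P' → P} {ε : P' → ℝ}
  {ε₀ : ℝ}

/-- the reparametrised family -/
def bsc (b : P × E k → SympCt n) (σ : P' → P) (ε : P' → ℝ) (q : P' × E k) : SympCt n :=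
  b (σ q.1, sc (ε q.1) q.2)

/-- its primitive -/
noncomputable def Bsc (B : P → E (k + n) → E k) (σ : P' → P) (ε : P' → ℝ) (p : P') (z : E (k + n)) : E k :=
  sx (ε p) (B (σ p) (bs (ε p) z))

omit [NormedAddCommGroup P] [NormedSpace ℝ P] [NormedAddCommGroup P'] [NormedSpace ℝ P'] in
theorem be_bsc (p : P') (z : E (k + n)) : be (bsc b σ ε) p z = be b (σ p) (bs (ε p) z) := by
  rw [be, be, bs, cq_jn, ct_jn]
  rfl

theorem bs_smooth (hε : ContDiff ℝ ∞ ε) :
    ContDiff ℝ ∞ (fun q : P' × E (k + n) => (bs (ε q.1) q.2 : E (k + n))) := by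
  have c0 : ContDiff ℝ ∞ (fun q : P' × E (k + n) => (cq q.2 : E k)) :=
    (cq : E (k + n) →L[ℝ] E k).contDiff.comp contDiff_snd
  have c1 : ContDiff ℝ ∞ (fun q : P' × E (k + n) => sc (ε q.1) (cq q.2 : E k)) :=
    (px.contDiff.comp c0).add ((hε.comp contDiff_fst).smul (py.contDiff.comp c0))
  exact (jnL : E k × E n →L[ℝ] E (k + n)).contDiff.comp
    (c1.prodMk ((ct : E (k + n) →L[ℝ] E n).contDiff.comp contDiff_snd))

theorem QFam.scale (h : QFam b R) (hσ : ContDiff ℝ ∞ σ) (hε : ContDiff ℝ ∞ ε) (h0 : 0 < ε₀)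
    (h1 : ∀ p, ε₀ ≤ ε p) (h2 : ε₀ ≤ 1) : QFam (bsc b σ ε) (R / ε₀) := by
  refine ⟨?_, fun p z hz => ?_⟩
  · have e1 : (fun q : P' × E (k + n) => be (bsc b σ ε) q.1 q.2) =
        fun q => be b (σ q.1) (bs (ε q.1) q.2) := funext fun q => be_bsc q.1 q.2
    rw [e1]
    exact h.smooth.comp ((hσ.comp contDiff_fst).prodMk (bs_smooth hε))
  · rw [be_bsc, h.off, bs, ct_jn]
    refine lt_of_lt_of_le ?_ (norm_le_bs h0 (h1 p) h2 z)
    rwa [div_lt_iff₀ h0, mul_comm] at hz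

omit [NormedAddCommGroup P'] [NormedSpace ℝ P'] in
theorem fderiv_Bsc (hB : ContDiff ℝ ∞ (fun q : P × E (k + n) => B q.1 q.2)) (p : P')
    (z ζ : E (k + n)) : fderiv ℝ (Bsc B σ ε p) z ζ =
      sx (ε p) (fderiv ℝ (B (σ p)) (bs (ε p) z) (bs (ε p) ζ)) := by
  have h1 := ((slice hB (σ p)).differentiable (by simp) (bs (ε p) z)).hasFDerivAt
  have h2 : HasFDerivAt (fun z : E (k + n) => (bs (ε p) z : E (k + n))) (bsL (ε p)) z :=
    (bsL (ε p) : E (k + n) →L[ℝ] E (k + n)).hasFDerivAt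
  have h3 := (ε p • px + py : E k →L[ℝ] E k).hasFDerivAt.comp z (h1.comp z h2)
  have h4 : fderiv ℝ (Bsc B σ ε p) z = _ := h3.fderiv
  rw [h4]
  rfl

omit [NormedAddCommGroup P'] [NormedSpace ℝ P'] in
theorem fderiv_be_bsc (h : QFam b R) (p : P') (z ζ : E (k + n)) :
    fderiv ℝ (be (bsc b σ ε) p) z ζ =
      fderiv ℝ (be b (σ p)) (bs (ε p) z) (bs (ε p) ζ) := by
  have h1 := ((slice h.smooth (σ p)).differentiable (by simp) (bs (ε p) z)).hasFDerivAt
  have h2 : HasFDerivAt (fun z : E (k + n) => (bs (ε p) z : E (k + n))) (bsL (ε p)) z :=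
    (bsL (ε p) : E (k + n) →L[ℝ] E (k + n)).hasFDerivAt
  have h3 := h1.comp z h2
  have h5 : be (bsc b σ ε) p = fun z => be b (σ p) (bs (ε p) z) := funext fun z => be_bsc p z
  have h4 : fderiv ℝ (fun z => be b (σ p) (bs (ε p) z)) z = _ := h3.fderiv
  rw [h5, h4]
  rfl

theorem Prim.scale (h : QFam b R) (hB : Prim b B R) (hσ : ContDiff ℝ ∞ σ)
    (hε : ContDiff ℝ ∞ ε) (h0 : 0 < ε₀) (h1 : ∀ p, ε₀ ≤ ε p) (h2 : ε₀ ≤ 1) :
    Prim (bsc b σ ε) (Bsc B σ ε) (R / ε₀) := by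
  refine ⟨?_, fun p z hz => ?_, fun p z δ v => ?_⟩
  · have c1 : ContDiff ℝ ∞ (fun q : P' × E (k + n) => B (σ q.1) (bs (ε q.1) q.2)) :=
      hB.smooth.comp ((hσ.comp contDiff_fst).prodMk (bs_smooth hε))
    exact ((hε.comp contDiff_fst).smul (px.contDiff.comp c1)).add (py.contDiff.comp c1)
  · rw [Bsc, hB.off, sx, map_zero, map_zero, smul_zero, add_zero]
    refine lt_of_lt_of_le ?_ (norm_le_bs h0 (h1 p) h2 z)
    rwa [div_lt_iff₀ h0, mul_comm] at hz
  · rw [fderiv_Bsc hB.smooth, fderiv_be_bsc h, fderiv_be_bsc h, bs_it, bs_iq, omega_sc, hB.eq]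

/-- the condition at one parameter -/
def GoodAt (B : P → E (k + n) → E k) (p : P) : Prop := ∀ z (v : E k) (t : ℝ), 0 ≤ t →
  py v = 0 → v - px (fderiv ℝ (B p) z (iq v)) = -(t • v) → v = 0

theorem sc_of {v : E k} (hv : py v = 0) (ε : ℝ) : sc ε v = v := by
  rw [sc, hv, smul_zero, add_zero, px_of hv]

omit [NormedAddCommGroup P'] [NormedSpace ℝ P'] in
theorem good_scale (hB : ContDiff ℝ ∞ (fun q : P × E (k + n) => B q.1 q.2)) {p : P'}
    (h : GoodAt B (σ p)) (h1 : 0 < ε p) (h2 : ε p ≤ 1) : GoodAt (Bsc B σ ε) p := by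
  intro z v t ht hv hJ
  rw [fderiv_Bsc hB, bs_iq, sc_of hv, sx, map_add, map_smul, px_px, px_py, add_zero] at hJ
  set w := px (fderiv ℝ (B (σ p)) (bs (ε p) z) (iq v)) with hw
  refine h (bs (ε p) z) v ((t + (1 - ε p)) / ε p) (by
    have : 0 ≤ 1 - ε p := by linarith
    positivity) hv ?_
  rw [← hw]
  have e1 : ε p • (v - w) = -((t + (1 - ε p)) • v) := by
    have e2 : ε p • w = v + t • v := by
      have : ε p • w = v - (v - ε p • w) := by abel
      rw [this, hJ, sub_neg_eq_add]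
    rw [smul_sub, e2, add_smul, sub_smul, one_smul]
    abel
  rw [div_eq_inv_mul, mul_smul, ← smul_neg, ← e1, smul_smul, inv_mul_cancel₀ h1.ne', one_smul]

omit [NormedAddCommGroup P'] [NormedSpace ℝ P'] in
theorem good_small (hB : ContDiff ℝ ∞ (fun q : P × E (k + n) => B q.1 q.2)) {p : P'} {c : ℝ}
    (hc : ∀ z v, ‖px (fderiv ℝ (B (σ p)) z (iq v))‖ ≤ c * ‖v‖) (h1 : 0 < ε p)
    (h2 : ε p * c < 1) : GoodAt (Bsc B σ ε) p := by
  intro z v t ht hv hJ
  rw [fderiv_Bsc hB, bs_iq, sc_of hv, sx, map_add, map_smul, px_px, px_py, add_zero] at hJ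
  set w := px (fderiv ℝ (B (σ p)) (bs (ε p) z) (iq v)) with hw
  have e2 : ε p • w = (1 + t) • v := by
    have : ε p • w = v - (v - ε p • w) := by abel
    rw [this, hJ, sub_neg_eq_add, add_smul, one_smul]
  have e3 := congrArg norm e2
  rw [norm_smul, norm_smul, Real.norm_of_nonneg h1.le, Real.norm_of_nonneg (by linarith)] at e3
  have e4 := mul_le_mul_of_nonneg_left (hc (bs (ε p) z) v) h1.le
  rw [← hw] at e4
  by_contra hne
  have hpos : 0 < ‖v‖ := norm_pos_iff.2 hne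
  have e5 : ε p * (c * ‖v‖) < 1 * ‖v‖ := by
    rw [← mul_assoc]
    exact mul_lt_mul_of_pos_right h2 hpos
  nlinarith [mul_nonneg ht hpos.le]

end scale

section pull

variable {b : P × E k → SympCt n} {B : P → E (k + n) → E k} {R : ℝ}

theorem QFam.pull (h : QFam b R) {σ : P' → P} (hσ : ContDiff ℝ ∞ σ) :
    QFam (fun q : P' × E k => b (σ q.1, q.2)) R :=
  ⟨h.smooth.comp ((hσ.comp contDiff_fst).prodMk contDiff_snd), fun p z hz => h.off (σ p) z hz⟩

theorem Prim.pull (h : Prim b B R) {σ : P' → P} (hσ : ContDiff ℝ ∞ σ) :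
    Prim (fun q : P' × E k => b (σ q.1, q.2)) (fun p => B (σ p)) R :=
  ⟨h.smooth.comp ((hσ.comp contDiff_fst).prodMk contDiff_snd), fun p z hz => h.off (σ p) z hz,
    fun p z δ v => h.eq (σ p) z δ v⟩

/-- where `b` is trivial so is the primitive -/
theorem Prim.triv (hn : 0 < n) (h : Prim b B R) {p : P} (hp : ∀ q, b (p, q) = 1) :
    ∀ z, B p z = 0 := by
  have h1 : Prim (fun q : P × E k => b (p, q.2)) (fun _ => B p) R :=
    h.pull (σ := fun _ : P => p) contDiff_const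
  have hbe : ∀ z, be (fun q : P × E k => b (p, q.2)) p z = ct z := by
    intro z
    show (b (p, cq z)).map (ct z) = ct z
    rw [hp]
    rfl
  have h2 : Prim (fun q : P × E k => b (p, q.2)) (fun _ _ => (0 : E k)) R := by
    refine ⟨contDiff_const, fun _ _ _ => rfl, fun p' z δ v => ?_⟩
    have e1 : be (fun q : P × E k => b (p, q.2)) p' = ct := by
      ext1 z
      exact hbe z
    rw [e1, ContinuousLinearMap.fderiv, ct_iq, EX.omega_zero_left]
    have e2 : fderiv ℝ (fun _ : E (k + n) => (0 : E k)) z = 0 := fderiv_const_apply _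
    rw [e2]
    exact EX.omega_zero_left _
  have h3 := h1.unique hn h2
  intro z
  exact congrFun (congrFun h3 p) z

theorem prim_bound [FiniteDimensional ℝ P] (h : Prim b B R) {Q : Set P} (hQ : IsCompact Q) :
    ∃ c : ℝ, 0 ≤ c ∧ ∀ p ∈ Q, ∀ z v, ‖px (fderiv ℝ (B p) z (iq v))‖ ≤ c * ‖v‖ := by
  have h1 : ContDiff ℝ ∞ (fun q : P × E (k + n) => fderiv ℝ (B q.1) q.2) := by
    refine ContDiff.fderiv (m := ∞) (n := ∞) ?_ contDiff_snd (by simp)
    exact h.smooth.comp ((contDiff_fst.comp contDiff_fst).prodMk contDiff_snd)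
  let g : P × E (k + n) → (E k →L[ℝ] E k) := fun q =>
    (px.comp (fderiv ℝ (B q.1) q.2)).comp (iq : E k →L[ℝ] E (k + n))
  have hg : Continuous g := by
    exact (continuous_const.clm_comp h1.continuous).clm_comp continuous_const
  obtain ⟨c, hc⟩ := ((hQ.prod (isCompact_closedBall (0 : E (k + n)) R)).image
    hg).isBounded.exists_norm_le
  refine ⟨max c 0, le_max_right _ _, fun p hp z v => ?_⟩
  by_cases hz : ‖z‖ ≤ R
  · have h2 := hc _ ⟨(p, z), ⟨hp, by simpa using hz⟩, rfl⟩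
    refine ((g (p, z)).le_opNorm v).trans ?_
    exact mul_le_mul_of_nonneg_right (h2.trans (le_max_left _ _)) (norm_nonneg _)
  · have hz' := not_le.1 hz
    have h6 : ∀ᶠ y : E (k + n) in 𝓝 z, R < ‖y‖ :=
      continuousAt_const.eventually_lt continuous_norm.continuousAt hz'
    have h7 : B p =ᶠ[𝓝 z] fun _ => 0 := by
      filter_upwards [h6] with y hy using h.off p y hy
    have e2 : fderiv ℝ (fun _ : E (k + n) => (0 : E k)) z = 0 := fderiv_const_apply _
    rw [h7.fderiv_eq, e2]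
    simp only [_root_.zero_apply, map_zero, norm_zero]
    positivity

end pull

end Pool.Agent.H822.BK
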