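import Mathlib
import Pool.Agent.H822.BK.Fam

/-!
# Homotopy classes of block positive families
-/

set_option autoImplicit false

open scoped ContDiff
open Set Filter Topology Function Metric
open Q170.SC Pool.Agent.H822.Ham Pool.Agent.H822.Pairs Pool.Agent.H822.PairsMain
open Pool.Agent.Q191.SY Pool.Agent.H822.EX

namespace Pool.Agent.H822.BK

open Td (et et_smooth et_zero et_one)

variable {k n : ℕ} {P : Type} [NormedAddCommGroup P] [NormedSpace ℝ P] [FiniteDimensional ℝ P]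

omit [FiniteDimensional ℝ P] in
theorem qfam_of {V : Type} [NormedAddCommGroup V] [NormedSpace ℝ V] {b : V × E k → SympCt n}
    (hs : ContDiff ℝ ∞ (fun q : (V × E k) × E n => (b q.1).map q.2)) {R : ℝ}
    (h1 : ∀ p q, R < ‖q‖ → b (p, q) = 1) (h2 : ∀ q w, R < ‖w‖ → (b q).map w = w) :
    QFam b R := by
  refine ⟨?_, fun p z hz => ?_⟩
  · exact hs.comp ((contDiff_fst.prodMk ((cq : E (k + n) →L[ℝ] E k).contDiff.comp
      contDiff_snd)).prodMk ((ct : E (k + n) →L[ℝ] E n).contDiff.comp contDiff_snd))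
  · rcases lt_norm.1 hz with h | h
    · rw [be, h1 _ _ h]
      rfl
    · exact h2 _ _ h

omit [FiniteDimensional ℝ P] in
theorem QFam.unc {b : P × E k → SympCt n} {R : ℝ} (h : QFam b R) :
    ContDiff ℝ ∞ (fun q : (P × E k) × E n => (b q.1).map q.2) := by
  have e1 : (fun q : (P × E k) × E n => (b q.1).map q.2) =
      fun q => be b q.1.1 (jn q.1.2 q.2) := by
    ext1 q
    rw [be, cq_jn, ct_jn]
  rw [e1]
  exact h.smooth.comp ((contDiff_fst.comp contDiff_fst).prodMk
    ((jnL : E k × E n →L[ℝ] E (k + n)).contDiff.comp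
      ((contDiff_snd.comp contDiff_fst).prodMk contDiff_snd)))

omit [NormedAddCommGroup P] [NormedSpace ℝ P] [FiniteDimensional ℝ P] in
theorem QFam.far_q {b : P × E k → SympCt n} {R : ℝ}
    (h : ∀ p (z : E (k + n)), R < ‖z‖ → be b p z = ct z) (p : P) {q : E k} (hq : R < ‖q‖) :
    b (p, q) = 1 := by
  refine map_eq_one fun w => ?_
  have h1 := h p (jn q w) (lt_norm.2 (Or.inl (by rwa [cq_jn])))
  rwa [be, cq_jn, ct_jn] at h1

omit [NormedAddCommGroup P] [NormedSpace ℝ P] [FiniteDimensional ℝ P] in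
theorem QFam.far_w {b : P × E k → SympCt n} {R : ℝ}
    (h : ∀ p (z : E (k + n)), R < ‖z‖ → be b p z = ct z) (p : P) (q : E k) {w : E n}
    (hw : R < ‖w‖) : (b (p, q)).map w = w := by
  have h1 := h p (jn q w) (lt_norm.2 (Or.inr (by rwa [ct_jn])))
  rwa [be, cq_jn, ct_jn] at h1

omit [NormedAddCommGroup P] [NormedSpace ℝ P] [FiniteDimensional ℝ P] in
/-- a block positive map which is trivial has a trivial transition map -/
theorem trans_triv {φ : P → SympCt (k + n)} {b : P × E k → SympCt n} (h : IsTrans φ b) {p : P}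
    (hp : φ p = 1) (q : E k) : b (p, q) = 1 := by
  refine map_eq_one fun w => ?_
  have h1 := h p (jn q w)
  rw [hp] at h1
  have h2 : (1 : SympCt (k + n)).map (jn q w) = jn q w := rfl
  rw [h2, ct_jn, cq_jn, px_add_py] at h1
  exact h1.symm

/-- existence of transition maps -/
theorem trans_exists {φ : P → SympCt (k + n)} (h : BMap φ) :
    ∃ b : P × E k → SympCt n, Fam b ∧ IsTrans φ b := by
  obtain ⟨R, hR, hoff, hone⟩ := fam_radius h.fam
  obtain ⟨b, B, hQ, hB, hG, hT, ht⟩ := exists_fwd h.fam.smooth hoff h.pos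
  refine ⟨b, ?_, ht⟩
  refine fam_of hQ.unc (isCompact_closedBall 0 R) (fun q w hw => ?_) (R := R) fun q hq => ?_
  · exact QFam.far_w hQ.off q.1 q.2 (not_ball hw)
  · rw [Prod.norm_def, lt_max_iff] at hq
    rcases hq with hq | hq
    · exact trans_triv ht (hone _ hq) _
    · exact QFam.far_q hQ.off _ hq

omit [FiniteDimensional ℝ P] in
theorem trans_unique {φ : P → SympCt (k + n)} (h : BMap φ) {b b' : P × E k → SympCt n}
    (hb : IsTrans φ b) (hb' : IsTrans φ b') : b = b' := by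
  obtain ⟨R, hR, hoff, hone⟩ := fam_radius h.fam
  exact hb.unique hoff h.pos hb'

theorem trans_injective (hn : 0 < n) {φ φ' : P → SympCt (k + n)} (h : BMap φ) (h' : BMap φ')
    {b : P × E k → SympCt n} (hb : IsTrans φ b) (hb' : IsTrans φ' b) : φ = φ' := by
  obtain ⟨R, hR, hoff, hone⟩ := fam_radius h.fam
  obtain ⟨R', hR', hoff', hone'⟩ := fam_radius h'.fam
  exact eq_of_trans hn h.fam.smooth hoff h.pos h'.fam.smooth hoff' h'.pos hb hb'

omit [FiniteDimensional ℝ P] in
theorem bhtp_left {φ φ' : P → SympCt (k + n)} (h : BHtp φ φ') : BMap φ := by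
  obtain ⟨Φ, K, hK, h1, h2, h3, h4, h5⟩ := h
  rw [← h4]
  exact ⟨⟨h1.comp ((contDiff_const (c := (0 : ℝ))).prodMk contDiff_id), K, hK, h2 0⟩, h3 0⟩

/-- homotopic families have homotopic transition maps -/
theorem htp_of_bhtp {φ φ' : P → SympCt (k + n)} (h : BHtp φ φ') {b b' : P × E k → SympCt n}
    (hb : IsTrans φ b) (hb' : IsTrans φ' b') : Htp b b' := by
  obtain ⟨Φ, K, hK, h1, h2, h3, h4, h5⟩ := h
  obtain ⟨R, hR, hRK⟩ := pair_radius hK
  let φt : ℝ × P → SympCt (k + n) := fun q => Φ q.1 q.2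
  have hs : ContDiff ℝ ∞ (fun q : (ℝ × P) × E (k + n) => (φt q.1).map q.2) :=
    h1.comp ((contDiff_fst.comp contDiff_fst).prodMk
      ((contDiff_snd.comp contDiff_fst).prodMk contDiff_snd))
  have hoff : ∀ (q : ℝ × P) z, R < ‖z‖ → (φt q).map z = z := fun q z hz =>
    h2 q.1 (q.2, z) (hRK _ _ (Or.inr hz))
  have hone : ∀ (q : ℝ × P), R < ‖q.2‖ → φt q = 1 := fun q hq =>
    map_eq_one fun z => h2 q.1 (q.2, z) (hRK _ _ (Or.inl hq))
  obtain ⟨c, B, hQ, hB, hG, hT, ht⟩ := exists_fwd hs hoff (fun q => h3 q.1 q.2)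
  have key := htp_of (m := n) (P := P × E k) (θ := fun q => c ((q.1, q.2.1), q.2.2))
    (K := closedBall 0 R) (R := R)
    (hQ.unc.comp ((((contDiff_fst.comp contDiff_fst).prodMk
      (contDiff_fst.comp (contDiff_snd.comp contDiff_fst))).prodMk
      (contDiff_snd.comp (contDiff_snd.comp contDiff_fst))).prodMk contDiff_snd))
    (isCompact_closedBall _ _) (fun q w hw => QFam.far_w hQ.off _ _ (not_ball hw))
    (fun s q hq => by
      rw [Prod.norm_def, lt_max_iff] at hq
      rcases hq with hq | hq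
      · exact trans_triv ht (hone (s, q.1) hq) _
      · exact QFam.far_q hQ.off _ hq)
  have e : ∀ s : ℝ, IsTrans (Φ s) (fun q : P × E k => c ((s, q.1), q.2)) := fun s p z =>
    ht (s, p) z
  have e0 : (fun q : P × E k => c ((0, q.1), q.2)) = b := by
    have h6 := e 0
    rw [h4] at h6
    refine h6.unique (R := R) (fun p z hz => ?_) (fun p => ?_) hb
    · rw [← h4]; exact hoff (0, p) z hz
    · rw [← h4]; exact h3 0 p
  have e1 : (fun q : P × E k => c ((1, q.1), q.2)) = b' := by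
    have h6 := e 1
    rw [h5] at h6
    refine h6.unique (R := R) (fun p z hz => ?_) (fun p => ?_) hb'
    · rw [← h5]; exact hoff (1, p) z hz
    · rw [← h5]; exact h3 1 p
  have key' : Htp (fun q : P × E k => c ((0, q.1), q.2)) (fun q => c ((1, q.1), q.2)) := key
  rwa [e0, e1] at key'

/-- block positive families from scaled families -/
theorem exists_scaled (hn : 0 < n) {V W : Type} [NormedAddCommGroup V] [NormedSpace ℝ V]
    [FiniteDimensional ℝ V] [NormedAddCommGroup W] [NormedSpace ℝ W]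
    {b : V × E k → SympCt n} {B : V → E (k + n) → E k} {R : ℝ} (h : QFam b R)
    (hB : Prim b B R) {σ : W → V} {ε : W → ℝ} {ε₀ : ℝ} [FiniteDimensional ℝ W]
    (hσ : ContDiff ℝ ∞ σ) (hε : ContDiff ℝ ∞ ε) (h0 : 0 < ε₀)
    (h1 : ∀ p, ε₀ ≤ ε p) (h2 : ε₀ ≤ 1) (hg : ∀ p, GoodAt (Bsc B σ ε) p) :
    ∃ φ : W → SympCt (k + n), ContDiff ℝ ∞ (fun q : W × E (k + n) => (φ q.1).map q.2) ∧
      (∀ p, SuppIn (closedBall 0 (R / ε₀)) (φ p).perm) ∧ (∀ p, Pos (φ p)) ∧
      IsTrans φ (bsc b σ ε) ∧ ∀ p, (∀ q, b (σ p, q) = 1) → φ p = 1 := by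
  have hQ' := h.scale hσ hε h0 h1 h2
  have hB' := Prim.scale h hB hσ hε h0 h1 h2
  obtain ⟨φ, a1, a2, a3, a4, a5⟩ := exists_back hn hQ' hB' (fun p z v t => hg p z v t)
  refine ⟨φ, a1, a2, a4, a5, fun p hp => map_eq_one fun z => ?_⟩
  have e1 : ∀ q, bsc b σ ε (p, q) = 1 := fun q => hp _
  have e2 := hB'.triv hn e1
  have e3 := a3 p z
  rw [Xi, Th, e2, map_zero, map_zero, sub_zero, add_zero, be, e1] at e3
  have e4 : (1 : SympCt n).map (ct z) = ct z := rfl
  rwa [e4, jn_eta] at e3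

/-- each family over `P × ℝ^{2k}` is homotopic to a transition map -/
theorem trans_surj (hn : 0 < n) {b : P × E k → SympCt n} (hb : Fam b) :
    ∃ (φ : P → SympCt (k + n)) (b' : P × E k → SympCt n), BMap φ ∧ IsTrans φ b' ∧ Htp b b' := by
  have : ProperSpace P := FiniteDimensional.proper_real P
  obtain ⟨R, hR, hoff, hone⟩ := fam_radius hb
  have hone' : ∀ p q, (R < ‖p‖ ∨ R < ‖q‖) → b (p, q) = 1 := fun p q h =>
    hone (p, q) (by rw [Prod.norm_def]; exact lt_max_iff.2 h)
  have hQ : QFam b R := qfam_of hb.smooth (fun p q hq => hone' p q (Or.inr hq)) hoff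
  obtain ⟨B, hB⟩ := exists_prim hn hQ
  obtain ⟨c, hc0, hc⟩ := prim_bound hB (isCompact_closedBall (0 : P) R)
  have hc' : ∀ p z v, ‖px (fderiv ℝ (B p) z (iq v))‖ ≤ c * ‖v‖ := by
    intro p z v
    by_cases hp : ‖p‖ ≤ R
    · exact hc p (by simpa using hp) z v
    · have h1 : B p = fun _ => 0 := funext (hB.triv hn fun q => hone' p q (Or.inl (not_le.1 hp)))
      have e2 : fderiv ℝ (fun _ : E (k + n) => (0 : E k)) z = 0 := fderiv_const_apply _
      rw [h1, e2]
      simp only [_root_.zero_apply, map_zero, norm_zero]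
      positivity
  set ε₀ : ℝ := 1 / (c + 1) with hε
  have h0 : 0 < ε₀ := by positivity
  have h1 : ε₀ ≤ 1 := by
    rw [hε, div_le_one (by linarith)]
    linarith
  have h2 : ε₀ * c < 1 := by
    rw [hε, one_div, inv_mul_lt_iff₀ (by linarith)]
    linarith
  obtain ⟨φ, a1, a2, a3, a4, a5⟩ := exists_scaled hn hQ hB (σ := fun p : P => p)
    (ε := fun _ => ε₀) contDiff_id contDiff_const h0 (fun _ => le_rfl) h1
    (fun p => good_small hB.smooth (fun z v => hc' p z v) h0 h2)
  refine ⟨φ, _, ⟨fam_of a1 (isCompact_closedBall _ _) a2 (R := R) fun p hp =>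
    a5 p fun q => hone' p q (Or.inl hp), a3⟩, a4, ?_⟩
  -- the homotopy
  have hεs : ContDiff ℝ ∞ (fun q : ℝ × P × E k => 1 - (1 - ε₀) * et q.1) :=
    contDiff_const.sub (contDiff_const.mul (et_smooth.comp contDiff_fst))
  have hεge : ∀ s : ℝ, ε₀ ≤ 1 - (1 - ε₀) * et s := by
    intro s
    have := et_mem s
    nlinarith [this.1, this.2]
  have key := htp_of (m := n) (P := P × E k)
    (θ := fun q => b (q.2.1, sc (1 - (1 - ε₀) * et q.1) q.2.2))
    (K := closedBall 0 R) (R := R / ε₀) ?_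
    (isCompact_closedBall _ _) (fun q w hw => hoff _ _ (not_ball hw)) (fun s q hq => ?_)
  · have e0 : (fun q : P × E k => b (q.1, sc (1 - (1 - ε₀) * et 0) q.2)) = b := by
      ext1 q
      rw [et_zero le_rfl, mul_zero, sub_zero, sc_one]
    have e1 : (fun q : P × E k => b (q.1, sc (1 - (1 - ε₀) * et 1) q.2)) =
        bsc b (fun p => p) (fun _ => ε₀) := by
      ext1 q
      rw [et_one le_rfl, mul_one, sub_sub_cancel]
      rfl
    have key' : Htp (fun q : P × E k => b (q.1, sc (1 - (1 - ε₀) * et 0) q.2))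
      (fun q : P × E k => b (q.1, sc (1 - (1 - ε₀) * et 1) q.2)) := key
    rwa [e0, e1] at key'
  · have c0 : ContDiff ℝ ∞ (fun q : (ℝ × P × E k) × E n =>
        sc (1 - (1 - ε₀) * et q.1.1) (q.1.2.2)) := by
      have c1 : ContDiff ℝ ∞ (fun q : (ℝ × P × E k) × E n => q.1.2.2) := by fun_prop
      exact (px.contDiff.comp c1).add ((hεs.comp contDiff_fst).smul (py.contDiff.comp c1))
    exact hb.smooth.comp (((contDiff_fst.comp (contDiff_snd.comp contDiff_fst)).prodMk
      c0).prodMk contDiff_snd)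
  · rw [Prod.norm_def, lt_max_iff] at hq
    refine hone' _ _ (hq.imp (fun hq => lt_of_le_of_lt ?_ hq) fun hq => ?_)
    · rw [le_div_iff₀ h0]
      nlinarith
    · refine lt_of_lt_of_le ?_ (norm_le_sc h0 (hεge s) h1 q.2)
      rwa [div_lt_iff₀ h0, mul_comm] at hq

/-- families with homotopic transition maps are homotopic -/
theorem bhtp_of_htp (hn : 0 < n) {φ φ' : P → SympCt (k + n)} (hφ : BMap φ) (hφ' : BMap φ')
    {b b' : P × E k → SympCt n} (hb : IsTrans φ b) (hb' : IsTrans φ' b') (h : Htp b b') :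
    BHtp φ φ' := by
  have : ProperSpace P := FiniteDimensional.proper_real P
  obtain ⟨H, K, hK, h1, h2, h3, h4⟩ := h
  obtain ⟨R, hR, hRK⟩ := pair_radius hK
  let c : (ℝ × P) × E k → SympCt n := fun q => H (et q.1.1) (q.1.2, q.2)
  have hoff : ∀ q w, R < ‖w‖ → (c q).map w = w := fun q w hw =>
    h2 _ ((q.1.2, q.2), w) (hRK _ _ (Or.inr hw))
  have hone : ∀ s p q, (R < ‖p‖ ∨ R < ‖q‖) → c ((s, p), q) = 1 := fun s p q h =>
    map_eq_one fun w => h2 _ ((p, q), w) (hRK _ _ (Or.inl (by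
      rw [Prod.norm_def]; exact lt_max_iff.2 h)))
  have hcs : ContDiff ℝ ∞ (fun q : ((ℝ × P) × E k) × E n => (c q.1).map q.2) := by
    have c0 : ContDiff ℝ ∞ (fun q : ((ℝ × P) × E k) × E n => et q.1.1.1) :=
      et_smooth.comp (contDiff_fst.comp (contDiff_fst.comp contDiff_fst))
    exact h1.comp (c0.prodMk ((((contDiff_snd.comp (contDiff_fst.comp contDiff_fst))).prodMk
      (contDiff_snd.comp contDiff_fst)).prodMk contDiff_snd))
  have hQ : QFam c R := qfam_of hcs (fun p q hq => hone _ _ _ (Or.inr hq)) hoff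
  obtain ⟨B, hB⟩ := exists_prim hn hQ
  obtain ⟨κ, hκ0, hκ⟩ := prim_bound hB ((isCompact_Icc (a := (0 : ℝ)) (b := 1)).prod
    (isCompact_closedBall (0 : P) R))
  have hκ' : ∀ s ∈ Icc (0 : ℝ) 1, ∀ p z v,
      ‖px (fderiv ℝ (B (s, p)) z (iq v))‖ ≤ κ * ‖v‖ := by
    intro s hs p z v
    by_cases hp : ‖p‖ ≤ R
    · exact hκ (s, p) ⟨hs, by simpa using hp⟩ z v
    · have e1 : B (s, p) = fun _ => 0 :=
        funext (hB.triv hn fun q => hone s p q (Or.inl (not_le.1 hp)))
      have e2 : fderiv ℝ (fun _ : E (k + n) => (0 : E k)) z = 0 := fderiv_const_apply _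
      rw [e1, e2]
      simp only [_root_.zero_apply, map_zero, norm_zero]
      positivity
  set ε₀ : ℝ := 1 / (κ + 1) with hε
  have h0 : 0 < ε₀ := by positivity
  have h01 : ε₀ ≤ 1 := by
    rw [hε, div_le_one (by linarith)]
    linarith
  have h02 : ε₀ * κ < 1 := by
    rw [hε, one_div, inv_mul_lt_iff₀ (by linarith)]
    linarith
  -- the ends are good
  have hgood : ∀ {ψ : P → SympCt (k + n)} {a : P × E k → SympCt n} (_ : BMap ψ)
      (_ : IsTrans ψ a) (s : ℝ) (_ : ∀ q : P × E k, c ((s, q.1), q.2) = a q) (p : P),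
      GoodAt B (s, p) := by
    intro ψ a hψ ha s hs p
    obtain ⟨R₁, hR₁, o1, o2⟩ := fam_radius hψ.fam
    obtain ⟨a₁, B₁, q1, q2, q3, q4, q5⟩ := exists_fwd hψ.fam.smooth o1 hψ.pos
    have e1 : a₁ = a := q5.unique o1 hψ.pos ha
    subst e1
    have e2 := hB.pull (σ := fun p : P => ((s, p) : ℝ × P)) (contDiff_const.prodMk contDiff_id)
    have e3 : (fun q : P × E k => c ((s, q.1), q.2)) = a₁ := funext hs
    rw [e3] at e2
    have e4 := e2.unique hn q2
    intro z v t ht hv hJ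
    refine q3 p z v t ht hv ?_
    rw [← e4]
    exact hJ
  have hc0 : ∀ (s : ℝ) (q : P × E k), s ≤ 0 → c ((s, q.1), q.2) = b q := by
    intro s q hs
    show H (et s) (q.1, q.2) = b q
    rw [et_zero hs, h3]
  have hc1 : ∀ (s : ℝ) (q : P × E k), 1 ≤ s → c ((s, q.1), q.2) = b' q := by
    intro s q hs
    show H (et s) (q.1, q.2) = b' q
    rw [et_one hs, h4]
  let σ : ℝ × P → ℝ × P := fun q => (et (3 * q.1 - 1), q.2)
  let ε : ℝ × P → ℝ := fun q => 1 - (1 - ε₀) * (et (3 * q.1) * et (3 - 3 * q.1))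
  have hσ : ContDiff ℝ ∞ σ := (et_smooth.comp (by fun_prop)).prodMk contDiff_snd
  have hεs : ContDiff ℝ ∞ ε := by
    have c1 : ContDiff ℝ ∞ (fun q : ℝ × P => et (3 * q.1)) := et_smooth.comp (by fun_prop)
    have c2 : ContDiff ℝ ∞ (fun q : ℝ × P => et (3 - 3 * q.1)) := et_smooth.comp (by fun_prop)
    exact contDiff_const.sub (contDiff_const.mul (c1.mul c2))
  have hprod : ∀ s : ℝ, et (3 * s) * et (3 - 3 * s) ∈ Icc (0 : ℝ) 1 := by
    intro s
    have a1 := et_mem (3 * s)
    have a2 := et_mem (3 - 3 * s)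
    exact ⟨mul_nonneg a1.1 a2.1, mul_le_one₀ a1.2 a2.1 a2.2⟩
  have hεge : ∀ q, ε₀ ≤ ε q := by
    intro q
    have := hprod q.1
    show ε₀ ≤ 1 - (1 - ε₀) * (et (3 * q.1) * et (3 - 3 * q.1))
    nlinarith [this.1, this.2]
  have hεle : ∀ q, ε q ≤ 1 := by
    intro q
    have := hprod q.1
    show 1 - (1 - ε₀) * (et (3 * q.1) * et (3 - 3 * q.1)) ≤ 1
    nlinarith [this.1, this.2]
  obtain ⟨Φ, a1, a2, a3, a4, a5⟩ := exists_scaled hn hQ hB hσ hεs h0 hεge h01 (fun q => by
    rcases lt_or_ge q.1 (1 / 3) with hs | hs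
    · refine good_scale hB.smooth ?_ (h0.trans_le (hεge q)) (hεle q)
      have e1 : σ q = (0, q.2) := by
        show (et (3 * q.1 - 1), q.2) = _
        rw [et_zero (by linarith)]
      rw [e1]
      exact hgood hφ hb 0 (fun q => hc0 0 q le_rfl) q.2
    rcases lt_or_ge (2 / 3) q.1 with hs' | hs'
    · refine good_scale hB.smooth ?_ (h0.trans_le (hεge q)) (hεle q)
      have e1 : σ q = (1, q.2) := by
        show (et (3 * q.1 - 1), q.2) = _
        rw [et_one (by linarith)]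
      rw [e1]
      exact hgood hφ' hb' 1 (fun q => hc1 1 q le_rfl) q.2
    · have e1 : ε q = ε₀ := by
        show 1 - (1 - ε₀) * (et (3 * q.1) * et (3 - 3 * q.1)) = ε₀
        rw [et_one (by linarith), et_one (by linarith)]
        ring
      refine good_small hB.smooth (c := κ) (fun z v => hκ' _ (et_mem _) q.2 z v) ?_ ?_
      · rw [e1]; exact h0
      · rw [e1]; exact h02)
  have hΦone : ∀ s p, R < ‖p‖ → Φ (s, p) = 1 := fun s p hp =>
    a5 (s, p) fun q => hone _ _ _ (Or.inl hp)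
  have hend : ∀ {ψ : P → SympCt (k + n)} {a : P × E k → SympCt n} (_ : BMap ψ)
      (_ : IsTrans ψ a) (s : ℝ) (_ : ∀ q : P × E k, bsc c σ ε ((s, q.1), q.2) = a q),
      (fun p => Φ (s, p)) = ψ := by
    intro ψ a hψ ha s hs
    have e1 : IsTrans (fun p => Φ (s, p)) a := by
      intro p z
      have := a4 (s, p) z
      rw [hs (p, _)] at this
      exact this
    refine trans_injective hn ⟨?_, fun p => a3 _⟩ hψ e1 ha
    exact fam_of (a1.comp ((contDiff_const.prodMk contDiff_fst).prodMk contDiff_snd))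
      (isCompact_closedBall _ _) (fun p => a2 (s, p)) (R := R) fun p hp => hΦone s p hp
  refine ⟨fun s p => Φ (s, p), closedBall 0 R ×ˢ closedBall 0 (R / ε₀),
    (isCompact_closedBall _ _).prod (isCompact_closedBall _ _), ?_, fun s q hq => ?_,
    fun s p => a3 _, ?_, ?_⟩
  · exact a1.comp ((contDiff_fst.prodMk (contDiff_fst.comp contDiff_snd)).prodMk
      (contDiff_snd.comp contDiff_snd))
  · rw [mem_prod, not_and_or] at hq
    rcases hq with hq | hq
    · show (Φ (s, q.1)).map q.2 = q.2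
      rw [hΦone s q.1 (not_ball hq)]
      rfl
    · exact a2 (s, q.1) q.2 hq
  · refine hend hφ hb 0 fun q => ?_
    show c (σ (0, q.1), sc (ε (0, q.1)) q.2) = b q
    have e1 : σ (0, q.1) = (0, q.1) := by
      show (et (3 * 0 - 1), q.1) = _
      rw [et_zero (by norm_num)]
    have e2 : ε (0, q.1) = 1 := by
      show 1 - (1 - ε₀) * (et (3 * 0) * et (3 - 3 * 0)) = 1
      rw [et_zero (t := 3 * 0) (by norm_num)]
      ring
    rw [e1, e2, sc_one]
    exact hc0 0 q le_rfl
  · refine hend hφ' hb' 1 fun q => ?_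
    show c (σ (1, q.1), sc (ε (1, q.1)) q.2) = b' q
    have e1 : σ (1, q.1) = (1, q.1) := by
      show (et (3 * 1 - 1), q.1) = _
      rw [et_one (by norm_num)]
    have e2 : ε (1, q.1) = 1 := by
      show 1 - (1 - ε₀) * (et (3 * 1) * et (3 - 3 * 1)) = 1
      rw [et_zero (t := 3 - 3 * 1) (by norm_num)]
      ring
    rw [e1, e2, sc_one]
    exact hc1 1 q le_rfl

theorem pos_one : Pos (1 : SympCt (k + n)) := by
  intro z v t ht hv h
  have h1 : (1 : SympCt (k + n)).map = id := rfl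
  rw [h1, fderiv_id, ContinuousLinearMap.id_apply, cq_iq, px_of hv] at h
  have h2 : (1 + t) • v = 0 := by
    rw [add_smul, one_smul]
    nth_rewrite 1 [h]
    abel
  exact (smul_eq_zero.1 h2).resolve_left (by linarith)

omit [FiniteDimensional ℝ P] in
theorem bmap_one : BMap (fun _ : P => (1 : SympCt (k + n))) :=
  ⟨⟨contDiff_snd, ∅, isCompact_empty, fun _ _ => rfl⟩, fun _ => pos_one⟩

omit [NormedAddCommGroup P] [NormedSpace ℝ P] [FiniteDimensional ℝ P] in
theorem trans_one : IsTrans (fun _ : P => (1 : SympCt (k + n)))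
    (fun _ : P × E k => (1 : SympCt n)) := fun _ _ => rfl

/-- if `G_n` is weakly contractible then so is the set of block positive maps -/
theorem block_trivial (hn : 0 < n) {φ : P → SympCt (k + n)} (hφ : BMap φ)
    (h : ∀ b : P × E k → SympCt n, Fam b → Htp b (fun _ => 1)) : BHtp φ (fun _ => 1) := by
  obtain ⟨b, hb, ht⟩ := trans_exists hφ
  exact bhtp_of_htp hn hφ bmap_one ht trans_one (h b hb)

end Pool.Agent.H822.BK
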