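import Mathlib
import Pool.Agent.H822.EX.Bridge
import Pool.Agent.H822.BK.Main
import Pool.Agent.H822.BK.BlkDefs

/-!
# The two forms of the definitions agree
-/

set_option autoImplicit false

open scoped ContDiff
open Set Filter Topology Function
open Q170.SC Pool.Agent.H822.Ham Pool.Agent.H822.Pairs Pool.Agent.H822.PairsMain
open Pool.Agent.Q191.SY

namespace Pool.Agent.H822.EF

variable {k n : ℕ}

theorem inX_eq (v : Fin k → ℝ) : (inX v : E (k + n)) = BK.iq (v, 0) := by
  rw [BK.iq_apply, BK.jn, inX]
  apply Prod.ext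
  · rfl
  · ext i
    refine Fin.addCases (fun j => ?_) (fun j => ?_) i
    · simp
    · simp

theorem block_iff (φ : SympCt (k + n)) : Block φ ↔ BK.Pos φ := by
  constructor
  · intro h z v t ht hv hz
    have h1 : v = (v.1, 0) := by
      have := BK.px_of hv
      rw [BK.px_apply] at this
      exact this.symm
    have h2 := h z v.1 t ht ?_
    · rw [h1, h2]
      rfl
    · rw [inX_eq, ← h1]
      rw [BK.px_apply] at hz
      exact congrArg Prod.fst hz
  · intro h z v t ht hz
    have h1 := h z ((v, 0) : E k) t ht rfl ?_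
    · exact congrArg Prod.fst h1
    · rw [inX_eq] at hz
      rw [BK.px_apply]
      apply Prod.ext
      · exact hz
      · show (0 : Fin k → ℝ) = -(t • (0 : Fin k → ℝ))
        rw [smul_zero, neg_zero]

variable {P : Type} [NormedAddCommGroup P] [NormedSpace ℝ P]

theorem blockmap_iff (φ : P → SympCt (k + n)) : BlockMap φ ↔ BK.BMap φ :=
  ⟨fun h => ⟨(fam_iff _).1 h.fam, fun p => (block_iff _).1 (h.block p)⟩,
    fun h => ⟨(fam_iff _).2 h.fam, fun p => (block_iff _).2 (h.pos p)⟩⟩

theorem blockhtp_iff (b b' : P → SympCt (k + n)) : BlockHtp b b' ↔ BK.BHtp b b' := by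
  constructor
  · rintro ⟨B, K, hK, h1, h2, h3, h4⟩
    refine ⟨B, K, hK, ?_, fun s q hq => h2 s q.1 q.2 hq, fun s p => (block_iff _).1 (h3 s p), h4⟩
    exact h1.comp ((contDiff_fst.prodMk (contDiff_fst.comp contDiff_snd)).prodMk
      (contDiff_snd.comp contDiff_snd))
  · rintro ⟨B, K, hK, h1, h2, h3, h4⟩
    refine ⟨B, K, hK, ?_, fun s p z hq => h2 s (p, z) hq, fun s p => (block_iff _).2 (h3 s p), h4⟩
    exact h1.comp ((contDiff_fst.comp contDiff_fst).prodMk
      ((contDiff_snd.comp contDiff_fst).prodMk contDiff_snd))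

omit [NormedAddCommGroup P] [NormedSpace ℝ P] in
theorem transition_iff (φ : P → SympCt (k + n)) (b : P × E k → SympCt n) :
    IsTransition φ b ↔ BK.IsTrans φ b := by
  refine forall_congr' fun p => forall_congr' fun z => ?_
  have e : BK.px (BK.cq ((φ p).map z)) + BK.py (BK.cq z) =
      (((first ((φ p).map z)).1, (first z).2) : E k) := by
    rw [BK.px_apply, BK.py_apply]
    apply Prod.ext
    · exact add_zero _
    · exact zero_add _
  rw [e]
  exact Iff.rfl

end Pool.Agent.H822.EF
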